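import Mathlib
/-! Hopf-type structure on `T = Tor^R(k,k)` (algebraic axioms) and the induced operators on
`K = G ⊗ T`. -/
set_option autoImplicit false
set_option linter.unusedSectionVars false
set_option linter.unusedSimpArgs false
open TensorProduct

namespace Pool.Agent.N38.LD

/-- Right multiplication `(V ⊗ T) ⊗ T → V ⊗ T`. -/
noncomputable def MR {k T : Type*} (V : Type*) [CommRing k] [AddCommGroup T] [Module k T]
    [AddCommGroup V] [Module k V] (mu : T →ₗ[k] T →ₗ[k] T) :
    (V ⊗[k] T) ⊗[k] T →ₗ[k] V ⊗[k] T :=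
  (TensorProduct.lift mu).lTensor V ∘ₗ (TensorProduct.assoc k V T T).toLinearMap

@[simp] theorem MR_tmul {k T V : Type*} [CommRing k] [AddCommGroup T] [Module k T]
    [AddCommGroup V] [Module k V] (mu : T →ₗ[k] T →ₗ[k] T) (v : V) (s t : T) :
    MR V mu ((v ⊗ₜ[k] s) ⊗ₜ[k] t) = v ⊗ₜ[k] (mu s t) := by
  simp [MR]

/-- The star product `(u ⊗ s) ⋆ (v ⊗ t) = u J^{|s|} v ⊗ s t` for a bilinear product `L` on `V`. -/
noncomputable def SS {k T : Type*} {V : Type*} [CommRing k] [AddCommGroup T] [Module k T]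
    [AddCommGroup V] [Module k V] (L : V →ₗ[k] V →ₗ[k] V) (J : V →ₗ[k] V)
    (ev od : T →ₗ[k] T) : V ⊗[k] T →ₗ[k] (V →ₗ[k] V ⊗[k] T) :=
  TensorProduct.lift (LinearMap.mk₂ k
    (fun u s => (TensorProduct.mk k V T).flip (ev s) ∘ₗ L u + (TensorProduct.mk k V T).flip (od s) ∘ₗ L u ∘ₗ J)
    (by intro a b c; ext z; simp [add_tmul]; abel)
    (by intro c a b; ext z; simp [smul_tmul'])
    (by intro a b c; ext z; simp [tmul_add]; abel)
    (by intro c a b; ext z; simp [tmul_smul]))

@[simp] theorem SS_tmul {k T V : Type*} [CommRing k] [AddCommGroup T] [Module k T]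
    [AddCommGroup V] [Module k V] (L : V →ₗ[k] V →ₗ[k] V) (J : V →ₗ[k] V)
    (ev od : T →ₗ[k] T) (u : V) (s : T) (z : V) :
    SS L J ev od (u ⊗ₜ[k] s) z = L u z ⊗ₜ[k] ev s + L u (J z) ⊗ₜ[k] od s := by
  simp [SS]

/-- algebraic structure of `Tor^R(k,k)` needed for the transfer argument -/
structure HT (k T ι : Type*) [Field k] [AddCommGroup T] [Module k T] [DecidableEq ι] where
  one : T
  eps : T →ₗ[k] k
  P : ℕ → T →ₗ[k] T
  J : T →ₗ[k] T
  ev : T →ₗ[k] T
  od : T →ₗ[k] T
  lam : ι → T →ₗ[k] T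
  rho : ι → T →ₗ[k] T
  mu : T →ₗ[k] T →ₗ[k] T
  Del : T →ₗ[k] T ⊗[k] T
  tt : ι → T
  -- grading
  JJ : ∀ t, J (J t) = t
  J_one : J one = one
  P_P : ∀ i j t, P i (P j t) = if i = j then P j t else 0
  P_sum : ∀ t, ∃ N, ∀ M, N ≤ M → t = ∑ i ∈ Finset.range M, P i t
  P_J : ∀ i t, P i (J t) = (-1 : k)^i • P i t
  J_P : ∀ i t, J (P i t) = (-1 : k)^i • P i t
  P_ev : ∀ i t, P i (ev t) = if Even i then P i t else 0
  P_od : ∀ i t, P i (od t) = if Even i then 0 else P i t
  ev_P : ∀ i t, ev (P i t) = if Even i then P i t else 0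
  od_P : ∀ i t, od (P i t) = if Even i then 0 else P i t
  P_zero : ∀ t, P 0 t = eps t • one
  eps_one : eps one = 1
  eps_P : ∀ i t, eps (P i t) = if i = 0 then eps t else 0
  -- degrees
  P_lam : ∀ i j t, P i (lam j t) = lam j (P (i+1) t)
  lam_P0 : ∀ j t, lam j (P 0 t) = 0
  P_rho : ∀ i j t, P i (rho j t) = rho j (P (i+1) t)
  rho_P0 : ∀ j t, rho j (P 0 t) = 0
  P_mu : ∀ i j n s t, n ≠ i + j → P n (mu (P i s) (P j t)) = 0
  P_Del : ∀ i j n t, n ≠ i + j → TensorProduct.map (P i) (P j) (Del (P n t)) = 0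
  J_lam : ∀ j t, J (lam j t) = - lam j (J t)
  J_rho : ∀ j t, J (rho j t) = - rho j (J t)
  J_mu : ∀ s t, J (mu s t) = mu (J s) (J t)
  J_Del : ∀ t, Del (J t) = TensorProduct.map J J (Del t)
  -- structure
  one_mu : ∀ t, mu one t = t
  mu_one : ∀ t, mu t one = t
  lam_mu : ∀ j s t, lam j (mu s t) = mu (lam j s) t + mu (J s) (lam j t)
  rho_mu : ∀ j s t, rho j (mu s t) = mu (rho j s) (J t) + mu s (rho j t)
  lam_rho : ∀ i j t, lam i (rho j t) = rho j (lam i t)
  lam_tt : ∀ i j, lam i (tt j) = if i = j then one else 0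
  rho_tt : ∀ i j, rho i (tt j) = if i = j then one else 0
  J_tt : ∀ j, J (tt j) = - tt j
  Del_lam : ∀ j t, Del (lam j t) = (lam j).rTensor T (Del t)
  lam_Del : ∀ j t, (lam j).lTensor T (Del t) = (rho j).rTensor T (Del t)
  Del_mu : ∀ s t, Del (mu s t) = MR T mu ((SS mu J ev od (Del s)).rTensor T (Del t))
  cou_r : ∀ t, TensorProduct.rid k T (eps.lTensor T (Del t)) = t
  cou_l : ∀ t, TensorProduct.lid k T (eps.rTensor T (Del t)) = t

variable {k G T ι : Type*} [Field k] [CommRing G] [Algebra k G] [AddCommGroup T] [Module k T]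
  [DecidableEq ι] [Fintype ι]

/-- the differential on `K = G ⊗ T` -/
noncomputable def dK (H : HT k T ι) (x : ι → G) : G ⊗[k] T →ₗ[k] G ⊗[k] T :=
  ∑ j, TensorProduct.map (LinearMap.mulLeft k (x j)) (H.lam j)

/-- product on `K` -/
noncomputable def LK (G : Type*) [CommRing G] [Algebra k G] (H : HT k T ι) : G ⊗[k] T →ₗ[k] G ⊗[k] T →ₗ[k] G ⊗[k] T :=
  TensorProduct.map₂ (LinearMap.mul k G) H.mu

@[simp] theorem LK_tmul (H : HT k T ι) (g h : G) (s t : T) :
    LK G H (g ⊗ₜ s) (h ⊗ₜ t) = (g * h) ⊗ₜ H.mu s t := by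
  simp [LK]

noncomputable def JK (G : Type*) [CommRing G] [Algebra k G] (H : HT k T ι) : G ⊗[k] T →ₗ[k] G ⊗[k] T := H.J.lTensor G
noncomputable def rK (G : Type*) [CommRing G] [Algebra k G] (H : HT k T ι) (j : ι) : G ⊗[k] T →ₗ[k] G ⊗[k] T := (H.rho j).lTensor G
noncomputable def DK (G : Type*) [CommRing G] [Algebra k G] (H : HT k T ι) : G ⊗[k] T →ₗ[k] (G ⊗[k] T) ⊗[k] T :=
  (TensorProduct.assoc k G T T).symm.toLinearMap ∘ₗ H.Del.lTensor G

@[simp] theorem JK_tmul (H : HT k T ι) (g : G) (s : T) : JK G H (g ⊗ₜ s) = g ⊗ₜ H.J s := by simp [JK]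
@[simp] theorem rK_tmul (H : HT k T ι) (j : ι) (g : G) (s : T) : rK G H j (g ⊗ₜ s) = g ⊗ₜ H.rho j s := by simp [rK]
@[simp] theorem dK_tmul (H : HT k T ι) (x : ι → G) (g : G) (s : T) :
    dK H x (g ⊗ₜ s) = ∑ j, (x j * g) ⊗ₜ H.lam j s := by simp [dK]

theorem JK_JK (H : HT k T ι) (z : G ⊗[k] T) : JK G H (JK G H z) = z := by
  induction z with
  | zero => simp
  | tmul g s => simp [H.JJ]
  | add a b ha hb => simp [ha, hb]

theorem JK_dK (H : HT k T ι) (x : ι → G) (z : G ⊗[k] T) : JK G H (dK H x z) = - dK H x (JK G H z) := by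
  induction z with
  | zero => simp
  | tmul g s => simp [H.J_lam, tmul_neg]
  | add a b ha hb => simp [ha, hb]; abel

theorem JK_rK (H : HT k T ι) (j : ι) (z : G ⊗[k] T) : JK G H (rK G H j z) = - rK G H j (JK G H z) := by
  induction z with
  | zero => simp
  | tmul g s => simp [H.J_rho, tmul_neg]
  | add a b ha hb => simp [ha, hb]; abel

theorem dK_rK (H : HT k T ι) (x : ι → G) (j : ι) (z : G ⊗[k] T) :
    dK H x (rK G H j z) = rK G H j (dK H x z) := by
  induction z with
  | zero => simp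
  | tmul g s => simp [H.lam_rho]
  | add a b ha hb => simp [ha, hb]

theorem JK_LK (H : HT k T ι) (y z : G ⊗[k] T) : JK G H (LK G H y z) = LK G H (JK G H y) (JK G H z) := by
  induction y with
  | zero => simp
  | add a b ha hb => simp [ha, hb]
  | tmul g s =>
    induction z with
    | zero => simp
    | add a b ha hb => simp [ha, hb]
    | tmul h t => simp [H.J_mu]

theorem dK_LK (H : HT k T ι) (x : ι → G) (y z : G ⊗[k] T) :
    dK H x (LK G H y z) = LK G H (dK H x y) z + LK G H (JK G H y) (dK H x z) := by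
  induction y with
  | zero => simp
  | add a b ha hb => simp [ha, hb]; abel
  | tmul g s =>
    induction z with
    | zero => simp
    | add a b ha hb => simp only [map_add, ha, hb]; abel
    | tmul h t =>
      simp only [LK_tmul, dK_tmul, JK_tmul, map_sum, LinearMap.sum_apply, H.lam_mu, tmul_add, Finset.sum_add_distrib]
      congr 1
      · exact Finset.sum_congr rfl fun j _ => by rw [mul_assoc]
      · exact Finset.sum_congr rfl fun j _ => by rw [mul_left_comm]

theorem rK_LK (H : HT k T ι) (j : ι) (y z : G ⊗[k] T) :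
    rK G H j (LK G H y z) = LK G H (rK G H j y) (JK G H z) + LK G H y (rK G H j z) := by
  induction y with
  | zero => simp
  | add a b ha hb => simp [ha, hb]; abel
  | tmul g s =>
    induction z with
    | zero => simp
    | add a b ha hb => simp only [map_add, ha, hb]; abel
    | tmul h t => simp [H.rho_mu, tmul_add]

theorem DK_dK (H : HT k T ι) (x : ι → G) (z : G ⊗[k] T) :
    DK G H (dK H x z) = (dK H x).rTensor T (DK G H z) := by
  induction z with
  | zero => simp
  | add a b ha hb => simp [ha, hb]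
  | tmul g s =>
    simp only [dK_tmul, map_sum, DK, LinearMap.comp_apply, LinearMap.lTensor_tmul, H.Del_lam, LinearEquiv.coe_coe]
    induction H.Del s with
    | zero => simp
    | add a b ha hb => simp only [tmul_add, map_add, Finset.sum_add_distrib, ha, hb]
    | tmul u v => simp [sum_tmul]

theorem DK_JK (H : HT k T ι) (z : G ⊗[k] T) :
    DK G H (JK G H z) = TensorProduct.map (JK G H) H.J (DK G H z) := by
  induction z with
  | zero => simp
  | add a b ha hb => simp [ha, hb]
  | tmul g s =>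
    simp only [JK_tmul, DK, LinearMap.comp_apply, LinearMap.lTensor_tmul, H.J_Del, LinearEquiv.coe_coe]
    induction H.Del s with
    | zero => simp
    | add a b ha hb => simp only [tmul_add, map_add, ha, hb]
    | tmul u v => simp

theorem lam_DK (H : HT k T ι) (j : ι) (z : G ⊗[k] T) :
    (H.lam j).lTensor _ (DK G H z) = (rK G H j).rTensor T (DK G H z) := by
  induction z with
  | zero => simp
  | add a b ha hb => simp [ha, hb]
  | tmul g s =>
    have h := H.lam_Del j s
    have e1 : ∀ w : T ⊗[k] T, (H.lam j).lTensor _ ((TensorProduct.assoc k G T T).symm (g ⊗ₜ[k] w)) =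
        (TensorProduct.assoc k G T T).symm (g ⊗ₜ[k] ((H.lam j).lTensor T w)) := by
      intro w
      induction w with
      | zero => simp
      | add a b ha hb => simp only [tmul_add, map_add, ha, hb]
      | tmul u v => simp
    have e2 : ∀ w : T ⊗[k] T, (rK G H j).rTensor T ((TensorProduct.assoc k G T T).symm (g ⊗ₜ[k] w)) =
        (TensorProduct.assoc k G T T).symm (g ⊗ₜ[k] ((H.rho j).rTensor T w)) := by
      intro w
      induction w with
      | zero => simp
      | add a b ha hb => simp only [tmul_add, map_add, ha, hb]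
      | tmul u v => simp
    simp only [DK, LinearMap.comp_apply, LinearMap.lTensor_tmul, LinearEquiv.coe_coe, e1, e2, h]

theorem DK_LK (H : HT k T ι) (y z : G ⊗[k] T) :
    DK G H (LK G H y z) = MR _ H.mu ((SS (LK G H) (JK G H) H.ev H.od (DK G H y)).rTensor T (DK G H z)) := by
  induction y with
  | zero => simp
  | add a b ha hb => simp only [map_add, LinearMap.add_apply, ha, hb, LinearMap.rTensor_add]
  | tmul g s =>
    induction z with
    | zero => simp
    | add a b ha hb => simp only [map_add, ha, hb]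
    | tmul h t =>
      simp only [LK_tmul, DK, LinearMap.comp_apply, LinearMap.lTensor_tmul, H.Del_mu, LinearEquiv.coe_coe]
      induction H.Del s with
      | zero => simp
      | add a b ha hb => simp only [tmul_add, map_add, LinearMap.rTensor_add, LinearMap.add_apply, ha, hb]
      | tmul u v =>
        induction H.Del t with
        | zero => simp
        | add a b ha hb => simp only [tmul_add, map_add, ha, hb]
        | tmul u' v' => simp [add_tmul, tmul_add]

end Pool.Agent.N38.LD
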