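import Pool.Agent.N38.LD.Abs1
/-! The transfer argument: abstract part. -/
set_option autoImplicit false
set_option linter.unusedSectionVars false
set_option linter.unusedSimpArgs false
open TensorProduct

namespace Pool.Agent.N38.LD

variable {k G T ι : Type*} [Field k] [CommRing G] [Algebra k G] [AddCommGroup T] [Module k T]
  [DecidableEq ι] [Fintype ι]

/-- a finite-dimensional model `X` of `K`, with a contraction of the complement -/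
structure XD (H : HT k T ι) (x : ι → G) (X : Type*) [AddCommGroup X] [Module k X] where
  inc : X →ₗ[k] G ⊗[k] T
  pr : G ⊗[k] T →ₗ[k] X
  Sg : G ⊗[k] T →ₗ[k] G ⊗[k] T
  dX : X →ₗ[k] X
  JX : X →ₗ[k] X
  rX : ι → X →ₗ[k] X
  DX : X →ₗ[k] X ⊗[k] T
  Q : ℕ → X →ₗ[k] X
  N : ℕ
  pr_inc : ∀ z, pr (inc z) = z
  inc_dX : ∀ z, inc (dX z) = dK H x (inc z)
  pr_dK : ∀ z, pr (dK H x z) = dX (pr z)
  inc_JX : ∀ z, inc (JX z) = JK G H (inc z)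
  pr_JK : ∀ z, pr (JK G H z) = JX (pr z)
  inc_rX : ∀ j z, inc (rX j z) = rK G H j (inc z)
  inc_DX : ∀ z, inc.rTensor T (DX z) = DK G H (inc z)
  htpy : ∀ z, dK H x (Sg z) + Sg (dK H x z) = z - inc (pr z)
  Sg_inc : ∀ z, Sg (inc z) = 0
  JK_Sg : ∀ z, JK G H (Sg z) = - Sg (JK G H z)
  Q_zero : Q 0 = 0
  Q_N : Q N = LinearMap.id
  Q_DX : ∀ i z, DX (Q (i+1) z) - (Q (i+1) z) ⊗ₜ[k] H.one =
    (Q i).rTensor T (DX (Q (i+1) z) - (Q (i+1) z) ⊗ₜ[k] H.one)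

variable {X : Type*} [AddCommGroup X] [Module k X] {H : HT k T ι} {x : ι → G}

namespace XD
variable (D : XD H x X)
include D

theorem inc_inj : Function.Injective D.inc := Function.LeftInverse.injective D.pr_inc

theorem incT_inj : Function.Injective (D.inc.rTensor T) := by
  apply Function.LeftInverse.injective (g := D.pr.rTensor T)
  intro z
  have : D.pr ∘ₗ D.inc = LinearMap.id := by ext z; simp [D.pr_inc]
  rw [← LinearMap.comp_apply, ← LinearMap.rTensor_comp, this]; simp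

theorem JX_JX (z : X) : D.JX (D.JX z) = z := by
  apply D.inc_inj; rw [D.inc_JX, D.inc_JX, JK_JK]

theorem JX_dX (z : X) : D.JX (D.dX z) = - D.dX (D.JX z) := by
  apply D.inc_inj; rw [map_neg, D.inc_JX, D.inc_dX, D.inc_dX, D.inc_JX, JK_dK]

theorem JX_rX (j : ι) (z : X) : D.JX (D.rX j z) = - D.rX j (D.JX z) := by
  apply D.inc_inj; rw [map_neg, D.inc_JX, D.inc_rX, D.inc_rX, D.inc_JX, JK_rK]

theorem dX_rX (j : ι) (z : X) : D.dX (D.rX j z) = D.rX j (D.dX z) := by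
  apply D.inc_inj; rw [D.inc_dX, D.inc_rX, D.inc_rX, D.inc_dX, dK_rK]

theorem DX_dX (z : X) : D.DX (D.dX z) = D.dX.rTensor T (D.DX z) := by
  apply D.incT_inj
  have e : D.inc ∘ₗ D.dX = (dK H x) ∘ₗ D.inc := by ext z; exact D.inc_dX z
  rw [D.inc_DX, D.inc_dX, DK_dK, ← D.inc_DX, ← LinearMap.rTensor_comp_apply, ← LinearMap.rTensor_comp_apply, e]

theorem DX_JX (z : X) : D.DX (D.JX z) = TensorProduct.map D.JX H.J (D.DX z) := by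
  apply D.incT_inj
  have e : D.inc ∘ₗ D.JX = (JK G H) ∘ₗ D.inc := by ext z; exact D.inc_JX z
  rw [D.inc_DX, D.inc_JX, DK_JK, ← D.inc_DX, LinearMap.rTensor, TensorProduct.map_map, TensorProduct.map_map, e]; simp

theorem lam_DX (j : ι) (z : X) : (H.lam j).lTensor _ (D.DX z) = (D.rX j).rTensor T (D.DX z) := by
  apply D.incT_inj
  have e : D.inc ∘ₗ D.rX j = (rK G H j) ∘ₗ D.inc := by ext z; exact D.inc_rX j z
  have h := lam_DK (G := G) H j (D.inc z)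
  rw [← D.inc_DX] at h
  rw [← LinearMap.comp_apply, LinearMap.rTensor_comp_lTensor, ← LinearMap.lTensor_comp_rTensor,
    LinearMap.comp_apply, h, ← LinearMap.rTensor_comp_apply, ← LinearMap.rTensor_comp_apply, e]

/-! ### operators on `Y = Hom(X,K)` -/
omit D in
theorem u_sub (u : (X →ₗ[k] G ⊗[k] T) →ₗ[k] G) (a b : X →ₗ[k] G ⊗[k] T) : u (a - b) = u a - u b := map_sub u a b
omit D in
theorem u_neg (u : (X →ₗ[k] G ⊗[k] T) →ₗ[k] G) (a : X →ₗ[k] G ⊗[k] T) : u (-a) = -u a := map_neg u a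
omit D in
theorem e_sub (u : (X →ₗ[k] G ⊗[k] T) →ₗ[k] (X →ₗ[k] G ⊗[k] T)) (a b : X →ₗ[k] G ⊗[k] T) : u (a - b) = u a - u b :=
  map_sub u a b
omit D in
theorem e_neg (u : (X →ₗ[k] G ⊗[k] T) →ₗ[k] (X →ₗ[k] G ⊗[k] T)) (a : X →ₗ[k] G ⊗[k] T) : u (-a) = -u a := map_neg u a

noncomputable def Dop : (X →ₗ[k] G ⊗[k] T) →ₗ[k] (X →ₗ[k] G ⊗[k] T) where
  toFun Φ := dK H x ∘ₗ Φ - JK G H ∘ₗ Φ ∘ₗ D.JX ∘ₗ D.dX
  map_add' a b := by ext z; simp; abel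
  map_smul' c a := by ext z; simp [smul_sub]

noncomputable def Eop (j : ι) : (X →ₗ[k] G ⊗[k] T) →ₗ[k] (X →ₗ[k] G ⊗[k] T) where
  toFun Φ := JK G H ∘ₗ (rK G H j ∘ₗ Φ - Φ ∘ₗ D.rX j)
  map_add' a b := by ext z; simp; abel
  map_smul' c a := by ext z; simp [smul_sub]

noncomputable def Sop : (X →ₗ[k] G ⊗[k] T) →ₗ[k] (X →ₗ[k] G ⊗[k] T) where
  toFun Φ := D.Sg ∘ₗ Φ
  map_add' a b := by ext z; simp
  map_smul' c a := by ext z; simp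

noncomputable def Pop : (X →ₗ[k] G ⊗[k] T) →ₗ[k] (X →ₗ[k] X) where
  toFun Φ := D.pr ∘ₗ Φ
  map_add' a b := by ext z; simp
  map_smul' c a := by ext z; simp

@[simp] theorem Dop_apply (Φ : X →ₗ[k] G ⊗[k] T) (z : X) :
    D.Dop Φ z = dK H x (Φ z) - JK G H (Φ (D.JX (D.dX z))) := rfl
@[simp] theorem Eop_apply (j : ι) (Φ : X →ₗ[k] G ⊗[k] T) (z : X) :
    D.Eop j Φ z = JK G H (rK G H j (Φ z) - Φ (D.rX j z)) := rfl
@[simp] theorem Sop_apply (Φ : X →ₗ[k] G ⊗[k] T) (z : X) : D.Sop Φ z = D.Sg (Φ z) := rfl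
@[simp] theorem Pop_apply (Φ : X →ₗ[k] G ⊗[k] T) (z : X) : D.Pop Φ z = D.pr (Φ z) := rfl

theorem Eop_Dop (j : ι) (Φ : X →ₗ[k] G ⊗[k] T) : D.Eop j (D.Dop Φ) = - D.Dop (D.Eop j Φ) := by
  ext z
  simp only [Eop_apply, Dop_apply, LinearMap.neg_apply, map_sub, ← D.dX_rX, D.JX_rX, D.JX_dX, map_neg, JK_JK,
    JK_dK, JK_rK, dK_rK]
  abel

theorem Sop_Dop (Φ : X →ₗ[k] G ⊗[k] T) : D.Sop (D.Dop Φ) = Φ - D.inc ∘ₗ D.Pop Φ - D.Dop (D.Sop Φ) := by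
  ext z
  have h1 := D.htpy (Φ z)
  simp only [Sop_apply, Dop_apply, map_sub, LinearMap.sub_apply, LinearMap.comp_apply, Pop_apply, D.JK_Sg]
  rw [← h1]; abel

theorem Eop_inc (j : ι) (Φ : X →ₗ[k] X) :
    D.Eop j (D.inc ∘ₗ Φ) = D.inc ∘ₗ (D.JX ∘ₗ (D.rX j ∘ₗ Φ - Φ ∘ₗ D.rX j)) := by
  ext z
  simp [D.inc_JX, D.inc_rX]

theorem Sop_inc (Φ : X →ₗ[k] X) : D.Sop (D.inc ∘ₗ Φ) = 0 := by
  ext z; simp [D.Sg_inc]

/-- the maps `y_n : Y → G` -/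
noncomputable def y : ℕ → ((X →ₗ[k] G ⊗[k] T) →ₗ[k] G)
  | 0 => (Algebra.linearMap k G) ∘ₗ (LinearMap.trace k X) ∘ₗ (LinearMap.llcomp k X X X D.JX) ∘ₗ D.Pop
  | n+1 => ∑ j, (LinearMap.mulLeft k (x j)) ∘ₗ (y n) ∘ₗ (D.Eop j) ∘ₗ D.Sop

theorem y_zero (Φ : X →ₗ[k] G ⊗[k] T) : D.y 0 Φ = algebraMap k G (LinearMap.trace k X (D.JX ∘ₗ D.Pop Φ)) := rfl
theorem y_succ (n : ℕ) (Φ : X →ₗ[k] G ⊗[k] T) : D.y (n+1) Φ = ∑ j, x j * D.y n (D.Eop j (D.Sop Φ)) := by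
  simp [y]

theorem str_comm [Module.Finite k X] (a : X →ₗ[k] X) (Φ : X →ₗ[k] X) :
    LinearMap.trace k X (D.JX ∘ₗ (a ∘ₗ Φ - D.JX ∘ₗ Φ ∘ₗ D.JX ∘ₗ a)) = 0 := by
  have : D.JX ∘ₗ (a ∘ₗ Φ - D.JX ∘ₗ Φ ∘ₗ D.JX ∘ₗ a) = (D.JX ∘ₗ a) ∘ₗ Φ - Φ ∘ₗ (D.JX ∘ₗ a) := by
    ext z; simp [D.JX_JX]
  rw [this, map_sub, LinearMap.trace_comp_comm', sub_self]

theorem y_zero_Dop [Module.Finite k X] (Φ : X →ₗ[k] G ⊗[k] T) : D.y 0 (D.Dop Φ) = 0 := by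
  have : D.Pop (D.Dop Φ) = D.dX ∘ₗ D.Pop Φ - D.JX ∘ₗ (D.Pop Φ) ∘ₗ D.JX ∘ₗ D.dX := by
    ext z; simp [D.pr_dK, D.pr_JK]
  rw [y_zero, this, D.str_comm, map_zero]

theorem y_zero_Eop [Module.Finite k X] (j : ι) (Φ : X →ₗ[k] X) : D.y 0 (D.Eop j (D.inc ∘ₗ Φ)) = 0 := by
  have : D.JX ∘ₗ D.Pop (D.Eop j (D.inc ∘ₗ Φ)) = D.rX j ∘ₗ Φ - Φ ∘ₗ D.rX j := by
    ext z; simp [D.pr_JK, D.JX_JX, D.pr_inc, ← D.inc_rX]
  rw [y_zero, this, map_sub, LinearMap.trace_comp_comm', sub_self, map_zero]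

theorem y_succ_inc (n : ℕ) (Φ : X →ₗ[k] X) : D.y (n+1) (D.inc ∘ₗ Φ) = 0 := by
  rw [y_succ]; simp [D.Sop_inc]

/-- the quadratic relation -/
def Quad (H : HT k T ι) (x : ι → G) : Prop :=
  ∑ i, ∑ j, (x i * x j) ⊗ₜ[k] (H.rho i ∘ₗ H.rho j) = (0 : G ⊗[k] (T →ₗ[k] T))

omit D in
theorem quad_apply (hQ : Quad H x) {M : Type*} [AddCommMonoid M] [Module k M]
    (u : M →ₗ[k] G) (v : (T →ₗ[k] T) →ₗ[k] M) :
    ∑ i, ∑ j, (x i * x j) * u (v (H.rho i ∘ₗ H.rho j)) = 0 := by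
  have := congrArg (LinearMap.mul' k G ∘ₗ (u ∘ₗ v).lTensor G) hQ
  simpa using this

theorem quad_y (hQ : Quad H x) (u : (X →ₗ[k] G ⊗[k] T) →ₗ[k] G) (Ψ : X →ₗ[k] G ⊗[k] T) :
    ∑ j, ∑ l, x j * (x l * u (D.Eop l (D.Eop j Ψ))) = 0 := by
  have e : ∀ j l, D.Eop l (D.Eop j Ψ) = - (rK G H l ∘ₗ rK G H j ∘ₗ Ψ) + rK G H l ∘ₗ Ψ ∘ₗ D.rX j
      - rK G H j ∘ₗ Ψ ∘ₗ D.rX l + Ψ ∘ₗ D.rX j ∘ₗ D.rX l := by
    intro j l; ext z
    simp only [Eop_apply, map_sub, JK_rK, JK_JK, LinearMap.add_apply, LinearMap.sub_apply, LinearMap.neg_apply,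
      LinearMap.comp_apply, map_neg, map_add]
    abel
  let v1 : (T →ₗ[k] T) →ₗ[k] (X →ₗ[k] G ⊗[k] T) :=
    { toFun := fun f => (f.lTensor G) ∘ₗ Ψ
      map_add' := by intro a b; ext z; simp [LinearMap.lTensor_add]
      map_smul' := by intro c a; ext z; simp [LinearMap.lTensor_smul] }
  let v2 : (T →ₗ[k] T) →ₗ[k] (X →ₗ[k] G ⊗[k] T) :=
    { toFun := fun f => Ψ ∘ₗ D.pr ∘ₗ (f.lTensor G) ∘ₗ D.inc
      map_add' := by intro a b; ext z; simp [LinearMap.lTensor_add]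
      map_smul' := by intro c a; ext z; simp [LinearMap.lTensor_smul] }
  have h1 := quad_apply hQ u v1
  have h2 := quad_apply hQ u v2
  have e1 : ∀ l j, v1 (H.rho l ∘ₗ H.rho j) = rK G H l ∘ₗ rK G H j ∘ₗ Ψ := by
    intro l j; ext z; simp [v1, rK, LinearMap.lTensor_comp]
  have e2 : ∀ l j, v2 (H.rho l ∘ₗ H.rho j) = Ψ ∘ₗ D.rX l ∘ₗ D.rX j := by
    intro l j; ext z
    simp only [v2, LinearMap.lTensor_comp, LinearMap.coe_mk, AddHom.coe_mk, LinearMap.comp_apply]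
    congr 1
    apply D.inc_inj
    have : D.inc (D.rX l (D.rX j z)) = (LinearMap.lTensor G (H.rho l)) ((LinearMap.lTensor G (H.rho j)) (D.inc z)) := by
      rw [D.inc_rX, D.inc_rX]; rfl
    rw [← this, D.pr_inc]
  simp only [e1] at h1
  simp only [e2] at h2
  simp only [e, map_add, u_sub, u_neg, mul_add, mul_sub, mul_neg, Finset.sum_add_distrib,
    Finset.sum_sub_distrib, Finset.sum_neg_distrib]
  have h3 : ∑ j, ∑ l, x j * (x l * u (rK G H l ∘ₗ rK G H j ∘ₗ Ψ)) = 0 := by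
    rw [← h1, Finset.sum_comm]
    refine Finset.sum_congr rfl fun l _ => Finset.sum_congr rfl fun j _ => ?_
    rw [← mul_assoc, mul_comm (x j) (x l)]
  have h4 : ∑ j, ∑ l, x j * (x l * u (Ψ ∘ₗ D.rX j ∘ₗ D.rX l)) = 0 := by
    rw [← h2]
    refine Finset.sum_congr rfl fun l _ => Finset.sum_congr rfl fun j _ => ?_
    rw [← mul_assoc]
  have h5 : ∑ j, ∑ l, x j * (x l * u (rK G H l ∘ₗ Ψ ∘ₗ D.rX j)) = ∑ j, ∑ l, x j * (x l * u (rK G H j ∘ₗ Ψ ∘ₗ D.rX l)) := by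
    rw [Finset.sum_comm]
    refine Finset.sum_congr rfl fun l _ => Finset.sum_congr rfl fun j _ => ?_
    rw [← mul_assoc, ← mul_assoc, mul_comm (x j) (x l)]
  rw [h3, h4, h5]; simp

theorem y_succ_Dop [Module.Finite k X] (hQ : Quad H x) (n : ℕ) :
    ∀ Φ : X →ₗ[k] G ⊗[k] T, D.y (n+1) (D.Dop Φ) = ∑ j, x j * D.y n (D.Eop j Φ) := by
  induction n with
  | zero =>
    intro Φ
    rw [y_succ]
    refine Finset.sum_congr rfl fun j _ => ?_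
    rw [D.Sop_Dop]
    simp only [u_sub, e_sub, D.y_zero_Eop, D.Eop_Dop, u_neg, D.y_zero_Dop]
    simp
  | succ n ih =>
    intro Φ
    rw [y_succ]
    have : ∀ j, x j * D.y (n+1) (D.Eop j (D.Sop (D.Dop Φ))) = x j * D.y (n+1) (D.Eop j Φ) +
        ∑ l, x j * (x l * D.y n (D.Eop l (D.Eop j (D.Sop Φ)))) := by
      intro j
      rw [D.Sop_Dop]
      simp only [u_sub, e_sub, D.Eop_inc, D.y_succ_inc, D.Eop_Dop, u_neg, ih]
      rw [sub_zero, sub_neg_eq_add, mul_add, Finset.mul_sum]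
    rw [Finset.sum_congr rfl fun j _ => this j, Finset.sum_add_distrib, D.quad_y hQ, add_zero]

end XD
end Pool.Agent.N38.LD
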