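import Mathlib
/-! Lifting and determination lemmas for complexes of free modules with minimal differential. -/
set_option autoImplicit false
set_option linter.unusedSectionVars false
set_option linter.unusedVariables false
open IsLocalRing

namespace Pool.Agent.N38.LD

/-- source complex: free module with homogeneous basis -/
structure Src (R P ι : Type*) [CommRing R] [IsLocalRing R] [AddCommGroup P] [Module R P] where
  b : Module.Basis ι R P
  deg : ι → ℕ
  D : P →ₗ[R] P
  DD : ∀ z, D (D z) = 0
  D_deg : ∀ i j, b.repr (D (b i)) j ≠ 0 → deg j + 1 = deg i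
  D_min : ∀ z, D z ∈ maximalIdeal R • (⊤ : Submodule R P)

/-- target complex: exact above degree zero -/
structure Tgt (R N A : Type*) [CommRing R] [IsLocalRing R] [AddCommGroup N] [Module R N]
    [AddCommGroup A] [Module R A] where
  d : N →ₗ[R] N
  al : N →ₗ[R] A
  gr : ℕ → Submodule R N
  ex : ∀ n, ∀ z ∈ gr n, d z = 0 → al z = 0 → ∃ z' ∈ gr (n+1), d z' = z ∧ al z' = 0
  dd : ∀ z, d (d z) = 0
  al_d : ∀ z, al (d z) = 0
  d_gr : ∀ n, ∀ z ∈ gr (n+1), d z ∈ gr n
  d_gr0 : ∀ z ∈ gr 0, d z = 0
  d_min : ∀ z, d z ∈ maximalIdeal R • (⊤ : Submodule R N)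
  hA : ∀ r ∈ maximalIdeal R, ∀ a : A, r • a = 0

variable {R P N A ι : Type*} [CommRing R] [IsLocalRing R] [AddCommGroup P] [Module R P]
  [AddCommGroup N] [Module R N] [AddCommGroup A] [Module R A]

theorem homotopy (S : Src R P ι) (T : Tgt R N A) (N' N'' : ι → Submodule R N)
    (hN : ∀ i j, S.deg j + 1 = S.deg i → N'' j ≤ N' i)
    (hex : ∀ i, ∀ z ∈ N' i, T.d z = 0 → T.al z = 0 → ∃ z' ∈ N'' i, T.d z' = z ∧ T.al z' = 0)
    (σ : R) (ψ : P →ₗ[R] N) (hψN : ∀ i, ψ (S.b i) ∈ N' i) (hψ : ∀ z, T.d (ψ z) = σ • ψ (S.D z))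
    (hψα : ∀ z, T.al (ψ z) = 0) :
    ∃ s : P →ₗ[R] N, (∀ i, s (S.b i) ∈ N'' i) ∧ (∀ z, T.al (s z) = 0) ∧
      ∀ z, T.d (s z) + σ • s (S.D z) = ψ z := by
  classical
  let pick : ι → N → N := fun i z => if h : ∃ z' ∈ N'' i, T.d z' = z ∧ T.al z' = 0 then h.choose else 0
  have pick_spec : ∀ i z, (∃ z' ∈ N'' i, T.d z' = z ∧ T.al z' = 0) →
      pick i z ∈ N'' i ∧ T.d (pick i z) = z ∧ T.al (pick i z) = 0 := by
    intro i z h
    simp only [pick, dif_pos h]
    exact h.choose_spec
  let F : (i : ι) → ((j : ι) → S.deg j < S.deg i → N) → N := fun i rec =>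
    pick i (ψ (S.b i) - σ • ((S.b.repr (S.D (S.b i))).sum fun j a => if h : S.deg j < S.deg i then a • rec j h else 0))
  let s0 : ι → N := (measure S.deg).wf.fix F
  have hs0 : ∀ i, s0 i = pick i (ψ (S.b i) - σ • ((S.b.repr (S.D (S.b i))).sum fun j a => a • s0 j)) := by
    intro i
    have h1 : s0 i = F i (fun j _ => s0 j) := (measure S.deg).wf.fix_eq F i
    rw [h1]
    simp only [F]
    congr 3
    refine Finset.sum_congr rfl fun j hj => ?_
    have hj' := S.D_deg i j (Finsupp.mem_support_iff.1 hj)
    beta_reduce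
    rw [dif_pos (by omega)]
  let s : P →ₗ[R] N := S.b.constr R s0
  have hsb : ∀ i, s (S.b i) = s0 i := fun i => S.b.constr_basis R s0 i
  have hsD : ∀ i, (S.b.repr (S.D (S.b i))).sum (fun j a => a • s0 j) = s (S.D (S.b i)) := by
    intro i; exact (S.b.constr_apply R s0 _).symm
  have main : ∀ n, ∀ i, S.deg i = n → s (S.b i) ∈ N'' i ∧ T.al (s (S.b i)) = 0 ∧
      T.d (s (S.b i)) + σ • s (S.D (S.b i)) = ψ (S.b i) := by
    intro n
    induction n using Nat.strong_induction_on with
    | _ n ih =>
      intro i hi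
      -- properties of s on D (b i)
      have hsum : S.D (S.b i) = (S.b.repr (S.D (S.b i))).sum fun j a => a • S.b j := by
        have := S.b.linearCombination_repr (S.D (S.b i))
        rw [Finsupp.linearCombination_apply] at this
        exact this.symm
      have q1 : s (S.D (S.b i)) ∈ N' i := by
        rw [hsum, Finsupp.sum, map_sum]
        refine Submodule.sum_mem _ fun j hj => ?_
        have hj' := S.D_deg i j (Finsupp.mem_support_iff.1 hj)
        rw [map_smul]
        exact Submodule.smul_mem _ _ (hN i j hj' (ih (S.deg j) (by omega) j rfl).1)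
      have q2 : T.al (s (S.D (S.b i))) = 0 := by
        rw [hsum, Finsupp.sum, map_sum, map_sum]
        refine Finset.sum_eq_zero fun j hj => ?_
        have hj' := S.D_deg i j (Finsupp.mem_support_iff.1 hj)
        rw [map_smul, map_smul, (ih (S.deg j) (by omega) j rfl).2.1, smul_zero]
      have q3 : T.d (s (S.D (S.b i))) = ψ (S.D (S.b i)) := by
        have e1 : ∀ j ∈ (S.b.repr (S.D (S.b i))).support,
            T.d (s ((S.b.repr (S.D (S.b i))) j • S.b j)) = ψ ((S.b.repr (S.D (S.b i))) j • S.b j) -
              σ • s (S.D ((S.b.repr (S.D (S.b i))) j • S.b j)) := by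
          intro j hj
          have hj' := S.D_deg i j (Finsupp.mem_support_iff.1 hj)
          have := (ih (S.deg j) (by omega) j rfl).2.2
          rw [map_smul, map_smul, map_smul, map_smul, map_smul, ← this, smul_add, smul_comm σ]
          abel
        have e2 : T.d (s (S.D (S.b i))) = ψ (S.D (S.b i)) - σ • s (S.D (S.D (S.b i))) := by
          have h1 := hsum
          rw [Finsupp.sum] at h1
          generalize hc : (S.b.repr (S.D (S.b i))) = c at *
          rw [h1, map_sum, map_sum, map_sum, map_sum, map_sum, Finset.smul_sum, ← Finset.sum_sub_distrib]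
          exact Finset.sum_congr rfl e1
        rw [e2, S.DD, map_zero, smul_zero, sub_zero]
      have q4 : ∃ z' ∈ N'' i, T.d z' = ψ (S.b i) - σ • s (S.D (S.b i)) ∧ T.al z' = 0 := by
        apply hex i
        · exact Submodule.sub_mem _ (hψN i) (Submodule.smul_mem _ _ q1)
        · rw [map_sub, map_smul, q3, hψ, sub_self]
        · rw [map_sub, map_smul, q2, hψα, smul_zero, sub_zero]
      have q5 := pick_spec i _ q4
      have q6 : s (S.b i) = pick i (ψ (S.b i) - σ • s (S.D (S.b i))) := by
        rw [hsb, hs0, hsD]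
      rw [← q6] at q5
      refine ⟨q5.1, q5.2.2, ?_⟩
      rw [q5.2.1, sub_add_cancel]
  refine ⟨s, fun i => (main _ i rfl).1, ?_, ?_⟩
  · intro z
    have : T.al ∘ₗ s = 0 := S.b.ext fun i => (main _ i rfl).2.1
    exact LinearMap.congr_fun this z
  · intro z
    have : T.d ∘ₗ s + σ • (s ∘ₗ S.D) = ψ := S.b.ext fun i => (main _ i rfl).2.2
    exact LinearMap.congr_fun this z

/-- shifted degree pieces -/
def sh (gr : ℕ → Submodule R N) (q n : ℕ) : Submodule R N := if q ≤ n then gr (n - q) else ⊥

theorem smul_top_le (T : Tgt R N A) (z : N) (hz : z ∈ maximalIdeal R • (⊤ : Submodule R N)) : T.al z = 0 := by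
  refine Submodule.smul_induction_on hz ?_ ?_
  · intro r hr n _; rw [map_smul, T.hA r hr]
  · intro a b ha hb; rw [map_add, ha, hb, add_zero]

/-- determination lemma: a chain map of degree `-q` with zero augmentation is zero mod `m` -/
theorem determ (S : Src R P ι) (T : Tgt R N A) (q : ℕ) (φ : P →ₗ[R] N)
    (hdeg : ∀ i, φ (S.b i) ∈ sh T.gr q (S.deg i)) (hφ : ∀ z, T.d (φ z) = φ (S.D z))
    (hα : ∀ z, T.al (φ z) = 0) (z : P) : φ z ∈ maximalIdeal R • (⊤ : Submodule R N) := by
  obtain ⟨s, -, -, hs⟩ := homotopy S T (fun i => sh T.gr q (S.deg i))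
    (fun i => if q ≤ S.deg i then T.gr (S.deg i - q + 1) else ⊥)
    (by
      intro i j hij
      simp only [sh]
      split_ifs with h1 h2 h2
      · have : S.deg j - q + 1 = S.deg i - q := by omega
        rw [this]
      · omega
      · exact bot_le
      · exact bot_le)
    (by
      intro i z hz hdz haz
      simp only [sh] at hz ⊢
      split_ifs with h1
      · rw [if_pos h1] at hz; exact T.ex _ z hz hdz haz
      · rw [if_neg h1, Submodule.mem_bot] at hz
        exact ⟨0, Submodule.zero_mem _, by simp [hz], by simp⟩)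
    1 φ hdeg (by intro z; rw [one_smul]; exact hφ z) hα
  rw [← hs z, one_smul]
  refine Submodule.add_mem _ (T.d_min _) ?_
  have := S.D_min z
  refine Submodule.smul_induction_on this ?_ ?_
  · intro r hr n _; rw [map_smul]; exact Submodule.smul_mem_smul hr Submodule.mem_top
  · intro a b ha hb; rw [map_add]; exact Submodule.add_mem _ ha hb

/-- existence of chain maps of degree zero -/
theorem exist (S : Src R P ι) (T : Tgt R N A) (φ0 : P →ₗ[R] N) (h0 : ∀ i, φ0 (S.b i) ∈ T.gr (S.deg i)) :
    ∃ φ : P →ₗ[R] N, (∀ i, φ (S.b i) ∈ T.gr (S.deg i)) ∧ (∀ z, T.d (φ z) = φ (S.D z)) ∧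
      ∀ z, T.al (φ z) = T.al (φ0 z) := by
  have hsum : ∀ i, S.D (S.b i) = (S.b.repr (S.D (S.b i))).sum fun j a => a • S.b j := by
    intro i
    have := S.b.linearCombination_repr (S.D (S.b i))
    rw [Finsupp.linearCombination_apply] at this
    exact this.symm
  obtain ⟨s, hs1, hs2, hs3⟩ := homotopy S T (fun i => sh T.gr 1 (S.deg i)) (fun i => T.gr (S.deg i))
    (by
      intro i j hij
      simp only [sh]
      rw [if_pos (by omega)]
      have : S.deg i - 1 = S.deg j := by omega
      rw [this])
    (by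
      intro i z hz hdz haz
      simp only [sh] at hz
      split_ifs at hz with h1
      · obtain ⟨z', h1', h2, h3⟩ := T.ex _ z hz hdz haz
        have : S.deg i - 1 + 1 = S.deg i := by omega
        rw [this] at h1'
        exact ⟨z', h1', h2, h3⟩
      · rw [Submodule.mem_bot] at hz
        exact ⟨0, Submodule.zero_mem _, by simp [hz], by simp⟩)
    (-1) (φ0 ∘ₗ S.D - T.d ∘ₗ φ0)
    (by
      intro i
      rw [LinearMap.sub_apply, LinearMap.comp_apply, LinearMap.comp_apply]
      refine Submodule.sub_mem _ ?_ ?_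
      · rw [hsum i, Finsupp.sum, map_sum]
        refine Submodule.sum_mem _ fun j hj => ?_
        have hj' := S.D_deg i j (Finsupp.mem_support_iff.1 hj)
        rw [map_smul]
        refine Submodule.smul_mem _ _ ?_
        simp only [sh]
        rw [if_pos (by omega)]
        have : S.deg i - 1 = S.deg j := by omega
        rw [this]; exact h0 j
      · simp only [sh]
        split_ifs with h1
        · apply T.d_gr
          have : S.deg i - 1 + 1 = S.deg i := by omega
          rw [this]; exact h0 i
        · rw [Submodule.mem_bot]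
          apply T.d_gr0
          have : S.deg i = 0 := by omega
          rw [← this]; exact h0 i)
    (by
      intro z
      simp only [LinearMap.sub_apply, LinearMap.comp_apply, map_sub, S.DD, T.dd, map_zero]
      simp)
    (by
      intro z
      simp only [LinearMap.sub_apply, LinearMap.comp_apply, map_sub, T.al_d, sub_zero]
      apply smul_top_le T
      refine Submodule.smul_induction_on (S.D_min z) ?_ ?_
      · intro r hr n _; rw [map_smul]; exact Submodule.smul_mem_smul hr Submodule.mem_top
      · intro a b ha hb; rw [map_add]; exact Submodule.add_mem _ ha hb)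
  refine ⟨φ0 + s, ?_, ?_, ?_⟩
  · intro i; exact Submodule.add_mem _ (h0 i) (hs1 i)
  · intro z
    have := hs3 z
    simp only [LinearMap.sub_apply, LinearMap.comp_apply] at this
    rw [LinearMap.add_apply, LinearMap.add_apply, map_add]
    have h2 : T.d (s z) = s (S.D z) + (φ0 (S.D z) - T.d (φ0 z)) := by rw [← this]; simp
    rw [h2]; abel
  · intro z; rw [LinearMap.add_apply, map_add, hs2, add_zero]

end Pool.Agent.N38.LD
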