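import Pool.Agent.N38.LD.B1
import Pool.Agent.N38.LD.Res
/-! The source/target structures of `F` and `F ⊗ F`. -/
set_option autoImplicit false
set_option linter.unusedSectionVars false
set_option linter.unusedVariables false
open IsLocalRing TensorProduct

namespace Pool.Agent.N38.LD

section gen
variable {R P N ι : Type*} [CommRing R] [AddCommMonoid P] [Module R P] [AddCommMonoid N] [Module R N]

theorem mem_smul_top_iff (b : Module.Basis ι R P) (I : Ideal R) (z : P) :
    z ∈ I • (⊤ : Submodule R P) ↔ ∀ i, b.repr z i ∈ I := by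
  constructor
  · intro h i
    refine Submodule.smul_induction_on h ?_ ?_
    · intro r hr n _; rw [map_smul, Finsupp.smul_apply, smul_eq_mul]; exact I.mul_mem_right _ hr
    · intro a b ha hb; rw [map_add, Finsupp.add_apply]; exact I.add_mem ha hb
  · intro h
    rw [← b.linearCombination_repr z, Finsupp.linearCombination_apply, Finsupp.sum]
    exact Submodule.sum_mem _ fun i _ => Submodule.smul_mem_smul (h i) Submodule.mem_top

/-- homogeneous elements of degree `n` -/
def grb (b : Module.Basis ι R P) (deg : ι → ℕ) (n : ℕ) : Submodule R P where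
  carrier := {z | ∀ i, b.repr z i ≠ 0 → deg i = n}
  zero_mem' := by intro i h; simp at h
  add_mem' := by
    intro x y hx hy i h
    rw [map_add, Finsupp.add_apply] at h
    by_cases h1 : b.repr x i = 0
    · exact hy i (by rwa [h1, zero_add] at h)
    · exact hx i h1
  smul_mem' := by
    intro c x hx i h
    rw [map_smul, Finsupp.smul_apply, smul_eq_mul] at h
    exact hx i (fun h0 => h (by rw [h0, mul_zero]))

theorem mem_grb {b : Module.Basis ι R P} {deg : ι → ℕ} {n : ℕ} {z : P} :
    z ∈ grb b deg n ↔ ∀ i, b.repr z i ≠ 0 → deg i = n := Iff.rfl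

theorem basis_mem_grb (b : Module.Basis ι R P) (deg : ι → ℕ) (i : ι) : b i ∈ grb b deg (deg i) := by
  classical
  intro j h
  rw [b.repr_self, Finsupp.single_apply] at h
  split_ifs at h with h1
  · rw [h1]
  · exact absurd rfl h

theorem map_grb (b : Module.Basis ι R P) (deg : ι → ℕ) (n : ℕ) (f : P →ₗ[R] N) (M : Submodule R N)
    (h : ∀ i, deg i = n → f (b i) ∈ M) {z : P} (hz : z ∈ grb b deg n) : f z ∈ M := by
  rw [← b.linearCombination_repr z, Finsupp.linearCombination_apply, Finsupp.sum, map_sum]
  refine Submodule.sum_mem _ fun i hi => ?_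
  rw [map_smul]
  exact Submodule.smul_mem _ _ (h i (hz i (Finsupp.mem_support_iff.1 hi)))

/-- diagonal map -/
noncomputable def dg {B : Type*} (w : B → R) : (B →₀ R) →ₗ[R] (B →₀ R) :=
  Finsupp.lsum R (fun β => w β • Finsupp.lsingle β)

@[simp] theorem dg_single {B : Type*} (w : B → R) (β : B) (a : R) :
    dg w (Finsupp.single β a) = Finsupp.single β (w β * a) := by
  simp [dg]

@[simp] theorem dg_apply {B : Type*} (w : B → R) (z : B →₀ R) (γ : B) : dg w z γ = w γ * z γ := by
  classical
  induction z using Finsupp.induction_linear with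
  | zero => simp
  | add a b ha hb => simp [ha, hb, mul_add]
  | single β a =>
    rw [dg_single, Finsupp.single_apply, Finsupp.single_apply]
    split_ifs with h
    · rw [h]
    · simp
end gen

variable {R B : Type} [CommRing R] [IsLocalRing R] (X : Res R B)

namespace Res

/-- sign operator -/
noncomputable def J : (B →₀ R) →ₗ[R] (B →₀ R) := dg (fun β => (-1) ^ X.deg β)

theorem J_single (β : B) (a : R) : X.J (Finsupp.single β a) = (-1 : R) ^ X.deg β • Finsupp.single β a := by
  simp [J]

theorem ext_single {M : Type*} [AddCommMonoid M] [Module R M] {f g : (B →₀ R) →ₗ[R] M}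
    (h : ∀ β, f (Finsupp.single β 1) = g (Finsupp.single β 1)) : f = g := by
  ext β; simpa using h β

theorem J_J (z : B →₀ R) : X.J (X.J z) = z := by
  ext γ; simp only [J, dg_apply]; rw [← mul_assoc, ← mul_pow]; simp

theorem d_J (z : B →₀ R) : X.d (X.J z) = - X.J (X.d z) := by
  have : X.d ∘ₗ X.J = - (X.J ∘ₗ X.d) := by
    apply ext_single
    intro β
    rw [LinearMap.comp_apply, J_single, map_smul, LinearMap.neg_apply, LinearMap.comp_apply]
    ext γ
    rw [Finsupp.smul_apply, Finsupp.neg_apply, J, dg_apply, smul_eq_mul]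
    by_cases h : X.d (Finsupp.single β 1) γ = 0
    · rw [h]; simp
    · rw [← X.d_deg β γ h, pow_succ]; ring
  exact LinearMap.congr_fun this z

theorem d_one : X.d (Finsupp.single X.one 1) = 0 := by
  ext γ
  by_contra h
  have := X.d_deg X.one γ h
  rw [X.deg_one] at this; omega

theorem J_one : X.J (Finsupp.single X.one 1) = Finsupp.single X.one 1 := by
  rw [J_single, X.deg_one]; simp

/-- `F` as a source -/
noncomputable def srcF : Src R (B →₀ R) B where
  b := Finsupp.basisSingleOne
  deg := X.deg
  D := X.d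
  DD := X.dd
  D_deg := by intro i j h; exact X.d_deg i j (by simpa using h)
  D_min := by
    intro z
    rw [mem_smul_top_iff Finsupp.basisSingleOne]
    intro i; simpa using X.d_min z i

/-- differential of `F ⊗ F` -/
noncomputable def DFF : (B →₀ R) ⊗[R] (B →₀ R) →ₗ[R] (B →₀ R) ⊗[R] (B →₀ R) :=
  TensorProduct.map X.d LinearMap.id + TensorProduct.map X.J X.d

theorem DFF_tmul (x y : B →₀ R) : X.DFF (x ⊗ₜ y) = X.d x ⊗ₜ y + X.J x ⊗ₜ X.d y := by simp [DFF]

noncomputable def bFF (R B : Type) [CommRing R] : Module.Basis (B × B) R ((B →₀ R) ⊗[R] (B →₀ R)) :=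
  Finsupp.basisSingleOne.tensorProduct Finsupp.basisSingleOne

theorem bFF_repr (x y : B →₀ R) (p : B × B) : (bFF R B).repr (x ⊗ₜ y) p = y p.2 * x p.1 := by
  obtain ⟨i, j⟩ := p
  simp [bFF, Module.Basis.tensorProduct_repr_tmul_apply]

theorem bFF_apply (p : B × B) : bFF R B p = Finsupp.single p.1 1 ⊗ₜ Finsupp.single p.2 1 := by
  simp [bFF, Module.Basis.tensorProduct_apply']

def degFF (p : B × B) : ℕ := X.deg p.1 + X.deg p.2

theorem d_mem (z : B →₀ R) : X.d z ∈ maximalIdeal R • (⊤ : Submodule R (B →₀ R)) := by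
  rw [mem_smul_top_iff Finsupp.basisSingleOne]
  intro i; simpa using X.d_min z i

theorem tmul_mem_left {M N : Type*} [AddCommGroup M] [Module R M] [AddCommGroup N] [Module R N] {x : M}
    (hx : x ∈ maximalIdeal R • (⊤ : Submodule R M)) (y : N) :
    x ⊗ₜ[R] y ∈ maximalIdeal R • (⊤ : Submodule R (M ⊗[R] N)) := by
  refine Submodule.smul_induction_on hx ?_ ?_
  · intro r hr n _; rw [← smul_tmul']; exact Submodule.smul_mem_smul hr Submodule.mem_top
  · intro a b ha hb; rw [add_tmul]; exact Submodule.add_mem _ ha hb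

theorem tmul_mem_right {M N : Type*} [AddCommGroup M] [Module R M] [AddCommGroup N] [Module R N] {y : N}
    (hy : y ∈ maximalIdeal R • (⊤ : Submodule R N)) (x : M) :
    x ⊗ₜ[R] y ∈ maximalIdeal R • (⊤ : Submodule R (M ⊗[R] N)) := by
  refine Submodule.smul_induction_on hy ?_ ?_
  · intro r hr n _; rw [tmul_smul]; exact Submodule.smul_mem_smul hr Submodule.mem_top
  · intro a b ha hb; rw [tmul_add]; exact Submodule.add_mem _ ha hb

/-- `F ⊗ F` as a source -/
noncomputable def srcFF : Src R ((B →₀ R) ⊗[R] (B →₀ R)) (B × B) where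
  b := bFF R B
  deg := X.degFF
  D := X.DFF
  DD := by
    intro z
    induction z with
    | zero => simp
    | add a b ha hb => simp only [map_add, ha, hb, add_zero]
    | tmul x y =>
      rw [DFF_tmul, map_add, DFF_tmul, DFF_tmul, X.dd, X.dd, X.d_J, neg_tmul, zero_tmul, tmul_zero]
      abel
  D_deg := by
    intro p q h
    rw [bFF_apply, DFF_tmul, map_add, Finsupp.add_apply, bFF_repr, bFF_repr] at h
    classical
    simp only [degFF]
    by_cases h1 : Finsupp.single p.2 (1 : R) q.2 * X.d (Finsupp.single p.1 1) q.1 = 0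
    · rw [h1, zero_add] at h
      have h2 : X.d (Finsupp.single p.2 1) q.2 ≠ 0 := fun h0 => h (by rw [h0, zero_mul])
      have h3 : X.J (Finsupp.single p.1 1) q.1 ≠ 0 := fun h0 => h (by rw [h0, mul_zero])
      rw [J_single, Finsupp.smul_apply, Finsupp.single_apply] at h3
      have h4 : p.1 = q.1 := by
        by_contra h5; rw [if_neg h5] at h3; exact h3 (by simp)
      have := X.d_deg _ _ h2
      rw [h4]; omega
    · have h2 : X.d (Finsupp.single p.1 1) q.1 ≠ 0 := fun h0 => h1 (by rw [h0, mul_zero])
      have h3 : Finsupp.single p.2 (1 : R) q.2 ≠ 0 := fun h0 => h1 (by rw [h0, zero_mul])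
      rw [Finsupp.single_apply] at h3
      have h4 : p.2 = q.2 := by
        by_contra h5; rw [if_neg h5] at h3; exact h3 rfl
      have := X.d_deg _ _ h2
      rw [h4]; omega
  D_min := by
    intro z
    induction z with
    | zero => simp
    | add a b ha hb => rw [map_add]; exact Submodule.add_mem _ ha hb
    | tmul x y =>
      rw [DFF_tmul]
      exact Submodule.add_mem _ (tmul_mem_left (X.d_mem x) y) (tmul_mem_right (X.d_mem y) _)

/-- reduction `F → T = F ⊗ k` -/
noncomputable def red (R B : Type) [CommRing R] [IsLocalRing R] : (B →₀ R) →ₗ[R] (B →₀ ResidueField R) :=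
  Finsupp.mapRange.linearMap (Algebra.linearMap R (ResidueField R))

theorem red_apply (z : B →₀ R) (γ : B) : red R B z γ = residue R (z γ) := by
  simp [red]

theorem red_single (β : B) (a : R) : red R B (Finsupp.single β a) = Finsupp.single β (residue R a) := by
  ext γ; rw [red_apply]
  classical
  rw [Finsupp.single_apply, Finsupp.single_apply]; split_ifs <;> simp

theorem red_eq_zero (z : B →₀ R) : red R B z = 0 ↔ ∀ γ, z γ ∈ maximalIdeal R := by
  constructor
  · intro h γ
    have := congrArg (fun f => f γ) h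
    simp only [red_apply, Finsupp.zero_apply] at this
    exact (residue_eq_zero_iff _).1 this
  · intro h; ext γ; rw [red_apply, Finsupp.zero_apply]; exact (residue_eq_zero_iff _).2 (h γ)

theorem smul_T_eq_zero {M : Type*} [AddCommGroup M] [Module (ResidueField R) M] [Module R M]
    [IsScalarTower R (ResidueField R) M] (r : R) (hr : r ∈ maximalIdeal R) (a : M) : r • a = 0 := by
  rw [← one_smul (ResidueField R) a, ← smul_assoc]
  have : r • (1 : ResidueField R) = 0 := by
    rw [Algebra.smul_def, mul_one]; exact (residue_eq_zero_iff r).2 hr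
  rw [this, zero_smul]

theorem red_surj : Function.Surjective (red R B) := by
  intro t
  induction t using Finsupp.induction_linear with
  | zero => exact ⟨0, map_zero _⟩
  | add a b ha hb =>
    obtain ⟨x, rfl⟩ := ha
    obtain ⟨y, rfl⟩ := hb
    exact ⟨x + y, map_add _ _ _⟩
  | single β a =>
    obtain ⟨r, rfl⟩ := residue_surjective a
    exact ⟨Finsupp.single β r, red_single β r⟩

/-- `F` as a target -/
noncomputable def tgtF : Tgt R (B →₀ R) (ResidueField R) where
  d := X.d
  al := (Algebra.linearMap R (ResidueField R)) ∘ₗ (Finsupp.lapply X.one)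
  gr := grb Finsupp.basisSingleOne X.deg
  ex := by
    intro n z hz hd ha
    have hz' : ∀ γ, z γ ≠ 0 → X.deg γ = n := fun γ h => hz γ (by simpa using h)
    obtain ⟨z', h1, h2⟩ := X.ex n z hz' hd ((residue_eq_zero_iff _).1 ha)
    refine ⟨z', fun γ h => h1 γ (by simpa using h), h2, ?_⟩
    have : z' X.one = 0 := by
      by_contra h
      have := h1 _ h
      rw [X.deg_one] at this; omega
    simp [this]
  dd := X.dd
  al_d := by intro z; exact (residue_eq_zero_iff _).2 (X.d_min z _)
  d_gr := by
    intro n z hz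
    refine map_grb _ _ (n+1) X.d _ ?_ hz
    intro i hi j h
    have := X.d_deg i j (by simpa using h)
    omega
  d_gr0 := by
    intro z hz
    have := map_grb _ _ 0 X.d ⊥ ?_ hz
    · simpa using this
    · intro i hi
      rw [X.uniq i hi]
      simp [X.d_one]
  d_min := X.d_mem
  hA := fun r hr a => smul_T_eq_zero r hr a

theorem al_F (z : B →₀ R) : X.tgtF.al z = residue R (z X.one) := rfl

/-- augmentation of `F ⊗ F → F ⊗ k` -/
noncomputable def alFF : (B →₀ R) ⊗[R] (B →₀ R) →ₗ[R] (B →₀ ResidueField R) :=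
  red R B ∘ₗ (TensorProduct.lid R (B →₀ R)).toLinearMap ∘ₗ (Finsupp.lapply X.one).rTensor (B →₀ R)

theorem alFF_tmul (x y : B →₀ R) : X.alFF (x ⊗ₜ y) = residue R (x X.one) • red R B y := by
  simp only [alFF, LinearMap.comp_apply, LinearMap.rTensor_tmul, Finsupp.lapply_apply, LinearEquiv.coe_coe,
    TensorProduct.lid_tmul, map_smul]
  rw [← algebraMap_smul (ResidueField R) (x X.one)]; rfl

noncomputable def eFF (R B : Type) [CommRing R] [DecidableEq B] : (B →₀ R) ⊗[R] (B →₀ R) ≃ₗ[R] (B →₀ (B →₀ R)) :=
  TensorProduct.finsuppScalarRight R R (B →₀ R) B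

theorem eFF_tmul [DecidableEq B] (x y : B →₀ R) (β : B) : eFF R B (x ⊗ₜ y) β = y β • x := by
  simp [eFF]

theorem eFF_repr [DecidableEq B] (z : (B →₀ R) ⊗[R] (B →₀ R)) (β γ : B) :
    eFF R B z β γ = (bFF R B).repr z (γ, β) := by
  induction z with
  | zero => simp
  | add a b ha hb => simp only [map_add, Finsupp.add_apply, ha, hb]
  | tmul x y => rw [eFF_tmul, bFF_repr, Finsupp.smul_apply, smul_eq_mul]

theorem eFF_d [DecidableEq B] (z : (B →₀ R) ⊗[R] (B →₀ R)) (β : B) :
    eFF R B (X.d.rTensor _ z) β = X.d (eFF R B z β) := by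
  induction z with
  | zero => simp
  | add a b ha hb => simp only [map_add, Finsupp.add_apply, ha, hb]
  | tmul x y => rw [LinearMap.rTensor_tmul, eFF_tmul, eFF_tmul, map_smul]

theorem eFF_al [DecidableEq B] (z : (B →₀ R) ⊗[R] (B →₀ R)) (β : B) :
    X.alFF z β = residue R (eFF R B z β X.one) := by
  induction z with
  | zero => simp
  | add a b ha hb => simp only [map_add, Finsupp.add_apply, ha, hb]
  | tmul x y =>
    rw [alFF_tmul, eFF_tmul, Finsupp.smul_apply, Finsupp.smul_apply, red_apply, smul_eq_mul, smul_eq_mul, map_mul, mul_comm]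

/-- `F ⊗ F` with differential `d ⊗ 1` as a target -/
noncomputable def tgtFF : Tgt R ((B →₀ R) ⊗[R] (B →₀ R)) (B →₀ ResidueField R) where
  d := X.d.rTensor _
  al := X.alFF
  gr := grb (bFF R B) X.degFF
  ex := by
    classical
    intro n z hz hd ha
    have h1 : ∀ β, X.d (eFF R B z β) = 0 := by
      intro β; rw [← eFF_d, hd]; simp
    have h2 : ∀ β, eFF R B z β X.one ∈ maximalIdeal R := by
      intro β; rw [← residue_eq_zero_iff, ← eFF_al, ha]; rfl
    have h3 : ∀ β γ, eFF R B z β γ ≠ 0 → X.deg γ + X.deg β = n := by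
      intro β γ h
      rw [eFF_repr] at h
      exact hz _ h
    have h4 : ∀ β, ∃ w : B →₀ R, (∀ γ, w γ ≠ 0 → X.deg γ + X.deg β = n + 1 ∧ 1 ≤ X.deg γ) ∧ X.d w = eFF R B z β ∧
        (eFF R B z β = 0 → w = 0) := by
      intro β
      by_cases h0 : eFF R B z β = 0
      · exact ⟨0, by simp, by rw [h0, map_zero], fun _ => rfl⟩
      · obtain ⟨γ0, hγ0⟩ : ∃ γ, eFF R B z β γ ≠ 0 := by
          by_contra hcon
          push Not at hcon
          exact h0 (Finsupp.ext hcon)
        have h5 := h3 β γ0 hγ0
        obtain ⟨w, hw1, hw2⟩ := X.ex (n - X.deg β) (eFF R B z β)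
          (by intro γ hγ; have := h3 β γ hγ; omega) (h1 β) (h2 β)
        refine ⟨w, ?_, hw2, fun h => absurd h h0⟩
        intro γ hγ
        have := hw1 γ hγ
        omega
    choose w hw1 hw2 hw3 using h4
    let W : B →₀ (B →₀ R) := Finsupp.onFinset (eFF R B z).support w (by
      intro β h
      rw [Finsupp.mem_support_iff]
      intro h0; exact h (hw3 β h0))
    have hW : ∀ β, eFF R B ((eFF R B).symm W) β = w β := by
      intro β; rw [LinearEquiv.apply_symm_apply]; rfl
    refine ⟨(eFF R B).symm W, ?_, ?_, ?_⟩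
    · intro p hp
      obtain ⟨γ, β⟩ := p
      rw [← eFF_repr, hW] at hp
      exact (hw1 β γ hp).1
    · apply (eFF R B).injective
      ext1 β
      rw [eFF_d, hW, hw2]
    · ext β
      rw [eFF_al, hW]
      have : w β X.one = 0 := by
        by_contra h
        have := (hw1 β _ h).2
        rw [X.deg_one] at this; omega
      rw [this]; simp
  dd := by
    intro z
    rw [← LinearMap.rTensor_comp_apply]
    have : X.d ∘ₗ X.d = 0 := by ext1; ext1; simp [X.dd]
    rw [this]; simp
  al_d := by
    intro z
    induction z with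
    | zero => simp
    | add a b ha hb => simp only [map_add, ha, hb, add_zero]
    | tmul x y =>
      rw [LinearMap.rTensor_tmul, alFF_tmul, (residue_eq_zero_iff _).2 (X.d_min x _), zero_smul]
  d_gr := by
    intro n z hz
    refine map_grb _ _ (n+1) (X.d.rTensor _) _ ?_ hz
    intro p hp q hq
    rw [bFF_apply, LinearMap.rTensor_tmul, bFF_repr] at hq
    classical
    have h2 : X.d (Finsupp.single p.1 1) q.1 ≠ 0 := fun h0 => hq (by rw [h0, mul_zero])
    have h3 : Finsupp.single p.2 (1 : R) q.2 ≠ 0 := fun h0 => hq (by rw [h0, zero_mul])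
    rw [Finsupp.single_apply] at h3
    have h4 : p.2 = q.2 := by
      by_contra h5; rw [if_neg h5] at h3; exact h3 rfl
    have := X.d_deg _ _ h2
    simp only [degFF] at hp ⊢
    rw [← h4]; omega
  d_gr0 := by
    intro z hz
    have := map_grb _ _ 0 (X.d.rTensor _) ⊥ ?_ hz
    · simpa using this
    · intro p hp
      simp only [degFF] at hp
      rw [bFF_apply, LinearMap.rTensor_tmul, X.uniq p.1 (by omega), X.d_one, zero_tmul]
      exact Submodule.zero_mem _
  d_min := by
    intro z
    induction z with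
    | zero => simp
    | add a b ha hb => rw [map_add]; exact Submodule.add_mem _ ha hb
    | tmul x y => rw [LinearMap.rTensor_tmul]; exact tmul_mem_left (X.d_mem x) y
  hA := fun r hr a => smul_T_eq_zero r hr a

end Res
end Pool.Agent.N38.LD
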