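import Pool.Agent.N38.LD.B2
import Pool.Agent.N38.LD.Abs5
/-! Product and coproduct on `F` up to homotopy, and their reductions to `T = F ⊗ k`. -/
set_option autoImplicit false
set_option linter.unusedSectionVars false
set_option linter.unusedVariables false
open IsLocalRing TensorProduct

namespace Pool.Agent.N38.LD

variable {R B : Type} [CommRing R] [IsLocalRing R] (X : Res R B)

namespace Res

/-- product and coproduct on the resolution -/
structure HR (X : Res R B) where
  m : (B →₀ R) ⊗[R] (B →₀ R) →ₗ[R] (B →₀ R)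
  m_gr : ∀ p, m (bFF R B p) ∈ grb (Finsupp.basisSingleOne (R := R)) X.deg (X.degFF p)
  m_d : ∀ z, X.d (m z) = m (X.DFF z)
  m_al : ∀ x y, residue R (m (x ⊗ₜ y) X.one) = residue R (x X.one) * residue R (y X.one)
  De : (B →₀ R) →ₗ[R] (B →₀ R) ⊗[R] (B →₀ R)
  De_gr : ∀ β, De (Finsupp.single β 1) ∈ grb (bFF R B) X.degFF (X.deg β)
  De_d : ∀ z, X.d.rTensor _ (De z) = De (X.d z)
  De_al : ∀ z, X.alFF (De z) = red R B z

theorem exists_HR : Nonempty (HR X) := by
  classical
  obtain ⟨m, hm1, hm2, hm3⟩ := exist X.srcFF X.tgtF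
    ((LinearMap.toSpanSingleton R _ (Finsupp.single X.one 1)) ∘ₗ (LinearMap.mul' R R) ∘ₗ
      TensorProduct.map (Finsupp.lapply X.one) (Finsupp.lapply X.one)) (by
      intro p γ h
      have e : (X.srcFF.b p) = Finsupp.single p.1 1 ⊗ₜ Finsupp.single p.2 1 := bFF_apply p
      rw [e] at h
      simp only [LinearMap.comp_apply, TensorProduct.map_tmul, LinearMap.mul'_apply, Finsupp.lapply_apply,
        LinearMap.toSpanSingleton_apply, Finsupp.basisSingleOne_repr, LinearEquiv.refl_apply, Finsupp.smul_apply,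
        smul_eq_mul] at h
      have h1 : Finsupp.single p.1 (1 : R) X.one ≠ 0 := fun h0 => h (by rw [h0]; simp)
      have h2 : Finsupp.single p.2 (1 : R) X.one ≠ 0 := fun h0 => h (by rw [h0]; simp)
      have h3 : Finsupp.single X.one (1 : R) γ ≠ 0 := fun h0 => h (by rw [h0]; simp)
      rw [Finsupp.single_apply] at h1 h2 h3
      have g1 : p.1 = X.one := by by_contra h5; rw [if_neg h5] at h1; exact h1 rfl
      have g2 : p.2 = X.one := by by_contra h5; rw [if_neg h5] at h2; exact h2 rfl
      have g3 : X.one = γ := by by_contra h5; rw [if_neg h5] at h3; exact h3 rfl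
      show X.deg γ = X.deg p.1 + X.deg p.2
      rw [g1, g2, ← g3, X.deg_one])
  obtain ⟨D, hD1, hD2, hD3⟩ := exist X.srcF X.tgtFF (TensorProduct.mk R _ _ (Finsupp.single X.one 1)) (by
      intro β p h
      have e : (X.srcF.b β) = Finsupp.single β 1 := by simp [srcF]
      rw [e] at h
      rw [TensorProduct.mk_apply, bFF_repr] at h
      have h1 : Finsupp.single β (1 : R) p.2 ≠ 0 := fun h0 => h (by rw [h0]; simp)
      have h2 : Finsupp.single X.one (1 : R) p.1 ≠ 0 := fun h0 => h (by rw [h0]; simp)
      rw [Finsupp.single_apply] at h1 h2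
      have g1 : β = p.2 := by by_contra h5; rw [if_neg h5] at h1; exact h1 rfl
      have g2 : X.one = p.1 := by by_contra h5; rw [if_neg h5] at h2; exact h2 rfl
      show X.deg p.1 + X.deg p.2 = X.deg β
      rw [← g1, ← g2, X.deg_one, zero_add])
  refine ⟨⟨m, hm1, hm2, ?_, D, ?_, hD2, ?_⟩⟩
  · intro x y
    have h1 : residue R (m (x ⊗ₜ y) X.one) = X.tgtF.al (m (x ⊗ₜ y)) := rfl
    rw [h1]
    refine (hm3 _).trans ?_
    simp [al_F]
  · intro β
    have e : (X.srcF.b β) = Finsupp.single β 1 := by simp [srcF]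
    have := hD1 β
    rw [e] at this; exact this
  · intro z
    refine (hD3 z).trans ?_
    show X.alFF _ = _
    rw [TensorProduct.mk_apply, alFF_tmul]
    simp

/-! ### reduction -/

/-- reduction of an `R`-linear map to a `k`-module -/
noncomputable def bar {V : Type*} [AddCommMonoid V] [Module (ResidueField R) V] [Module R V]
    [IsScalarTower R (ResidueField R) V] (φ : (B →₀ R) →ₗ[R] V) : (B →₀ ResidueField R) →ₗ[ResidueField R] V :=
  Finsupp.linearCombination (ResidueField R) (fun β => φ (Finsupp.single β 1))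

theorem bar_red {V : Type*} [AddCommMonoid V] [Module (ResidueField R) V] [Module R V]
    [IsScalarTower R (ResidueField R) V] (φ : (B →₀ R) →ₗ[R] V) (x : B →₀ R) : bar φ (red R B x) = φ x := by
  induction x using Finsupp.induction_linear with
  | zero => simp
  | add a b ha hb => simp only [map_add, ha, hb]
  | single β a =>
    rw [red_single, bar, Finsupp.linearCombination_single]
    have : Finsupp.single β a = a • Finsupp.single β (1 : R) := by simp
    rw [this, map_smul, ← algebraMap_smul (ResidueField R) a]; rfl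

noncomputable def redd (R B : Type) [CommRing R] [IsLocalRing R] :
    (B →₀ R) ⊗[R] (B →₀ R) →ₗ[R] (B →₀ ResidueField R) ⊗[ResidueField R] (B →₀ ResidueField R) :=
  TensorProduct.lift (LinearMap.mk₂ R (fun x y => red R B x ⊗ₜ[ResidueField R] red R B y)
    (by intro a b c; rw [map_add, add_tmul])
    (by intro c a b; rw [map_smul, smul_tmul'])
    (by intro a b c; rw [map_add, tmul_add])
    (by
      intro c a b
      rw [map_smul, ← algebraMap_smul (ResidueField R) c, ← algebraMap_smul (ResidueField R) c, tmul_smul]))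

theorem redd_tmul (x y : B →₀ R) : redd R B (x ⊗ₜ y) = red R B x ⊗ₜ[ResidueField R] red R B y := by
  simp [redd]

theorem redd_repr (z : (B →₀ R) ⊗[R] (B →₀ R)) (p : B × B) :
    (bFF (ResidueField R) B).repr (redd R B z) p = residue R ((bFF R B).repr z p) := by
  induction z with
  | zero => simp
  | add a b ha hb => simp only [map_add, Finsupp.add_apply, ha, hb]
  | tmul x y => rw [redd_tmul, bFF_repr, bFF_repr, red_apply, red_apply, map_mul]

theorem redd_eq_zero (z : (B →₀ R) ⊗[R] (B →₀ R))
    (hz : z ∈ maximalIdeal R • (⊤ : Submodule R ((B →₀ R) ⊗[R] (B →₀ R)))) : redd R B z = 0 := by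
  apply (bFF (ResidueField R) B).repr.injective
  ext p
  rw [redd_repr, map_zero, Finsupp.zero_apply, residue_eq_zero_iff]
  exact (mem_smul_top_iff (bFF R B) _ z).1 hz p

/-! ### determination lemmas -/

theorem det1 (q : ℕ) (φ : (B →₀ R) →ₗ[R] (B →₀ R))
    (hdeg : ∀ β γ, φ (Finsupp.single β 1) γ ≠ 0 → X.deg γ + q = X.deg β)
    (hφ : ∀ z, X.d (φ z) = φ (X.d z)) (hα : ∀ z, residue R (φ z X.one) = 0) (z : B →₀ R) : red R B (φ z) = 0 := by
  have := determ X.srcF X.tgtF q φ (by
    intro β
    have e : (X.srcF.b β) = Finsupp.single β 1 := by simp [srcF]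
    rw [e]
    simp only [sh]
    split_ifs with h
    · intro γ hγ
      have := hdeg β γ (by simpa using hγ)
      show X.deg γ = X.deg β - q
      omega
    · rw [Submodule.mem_bot]
      ext γ
      by_contra hγ
      have := hdeg β γ hγ
      exact h (show q ≤ X.deg β by omega)) hφ hα z
  rw [red_eq_zero]
  intro γ
  have h2 := (mem_smul_top_iff Finsupp.basisSingleOne _ _).1 this γ
  simpa using h2

theorem det3 (φ : (B →₀ R) ⊗[R] (B →₀ R) →ₗ[R] (B →₀ R) ⊗[R] (B →₀ R))
    (hdeg : ∀ p, φ (bFF R B p) ∈ grb (bFF R B) X.degFF (X.degFF p))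
    (hφ : ∀ z, X.d.rTensor _ (φ z) = φ (X.DFF z)) (hα : ∀ z, X.alFF (φ z) = 0) (z) : redd R B (φ z) = 0 := by
  apply redd_eq_zero
  refine determ X.srcFF X.tgtFF 0 φ ?_ hφ hα z
  intro p
  simp only [sh]
  rw [if_pos (Nat.zero_le _)]
  exact hdeg p

/-! ### T-level operators -/
variable {X}
namespace HR
variable (Y : HR X)

noncomputable def muT : (B →₀ ResidueField R) →ₗ[ResidueField R] (B →₀ ResidueField R) →ₗ[ResidueField R]
    (B →₀ ResidueField R) :=
  bar (V := (B →₀ ResidueField R) →ₗ[ResidueField R] (B →₀ ResidueField R))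
    { toFun := fun x => bar (red R B ∘ₗ Y.m ∘ₗ TensorProduct.mk R _ _ x)
      map_add' := by intro a b; ext β; simp [bar]
      map_smul' := by
        intro c a
        ext β γ
        simp only [bar, LinearMap.comp_apply, Finsupp.lsingle_apply, Finsupp.linearCombination_single, one_smul,
          TensorProduct.mk_apply, RingHom.id_apply, LinearMap.smul_apply, Finsupp.smul_apply]
        rw [← smul_tmul', map_smul, map_smul, Finsupp.smul_apply] }

theorem muT_red (x y : B →₀ R) : Y.muT (red R B x) (red R B y) = red R B (Y.m (x ⊗ₜ y)) := by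
  rw [muT, bar_red]
  simp only [LinearMap.coe_mk, AddHom.coe_mk]
  rw [bar_red]; rfl

noncomputable def DelT : (B →₀ ResidueField R) →ₗ[ResidueField R]
    (B →₀ ResidueField R) ⊗[ResidueField R] (B →₀ ResidueField R) := bar (redd R B ∘ₗ Y.De)

theorem DelT_red (x : B →₀ R) : Y.DelT (red R B x) = redd R B (Y.De x) := by
  rw [DelT, bar_red]; rfl

end HR
end Res
end Pool.Agent.N38.LD
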