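import Pool.Agent.N38.LD.B3
/-! T-level operators: liftable maps, the operators `lam j`. -/
set_option autoImplicit false
set_option linter.unusedSectionVars false
set_option linter.unusedVariables false
open IsLocalRing TensorProduct

namespace Pool.Agent.N38.LD

section dgl
variable {B : Type} (S : Type) [CommRing S] (deg : B → ℕ)

noncomputable def Pg (n : ℕ) : (B →₀ S) →ₗ[S] (B →₀ S) := dg (fun β => if deg β = n then 1 else 0)
noncomputable def Jg : (B →₀ S) →ₗ[S] (B →₀ S) := dg (fun β => (-1) ^ deg β)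
noncomputable def evg : (B →₀ S) →ₗ[S] (B →₀ S) := dg (fun β => if Even (deg β) then 1 else 0)
noncomputable def odg : (B →₀ S) →ₗ[S] (B →₀ S) := dg (fun β => if Even (deg β) then 0 else 1)

variable {S deg}

theorem ext_s {M : Type*} [AddCommMonoid M] [Module S M] {f g : (B →₀ S) →ₗ[S] M}
    (h : ∀ β, f (Finsupp.single β 1) = g (Finsupp.single β 1)) : f = g := by
  ext β; simpa using h β

theorem Pg_single (n : ℕ) (β : B) (a : S) :
    Pg S deg n (Finsupp.single β a) = if deg β = n then Finsupp.single β a else 0 := by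
  rw [Pg, dg_single]; split_ifs <;> simp

theorem Jg_single (β : B) (a : S) : Jg S deg (Finsupp.single β a) = (-1 : S) ^ deg β • Finsupp.single β a := by
  rw [Jg, dg_single]; simp

theorem evg_single (β : B) (a : S) :
    evg S deg (Finsupp.single β a) = if Even (deg β) then Finsupp.single β a else 0 := by
  rw [evg, dg_single]; split_ifs <;> simp

theorem odg_single (β : B) (a : S) :
    odg S deg (Finsupp.single β a) = if Even (deg β) then 0 else Finsupp.single β a := by
  rw [odg, dg_single]; split_ifs <;> simp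

/-- operators lowering the degree by `c` -/
def Low (deg : B → ℕ) (c : ℕ) (f : (B →₀ S) →ₗ[S] (B →₀ S)) : Prop :=
  ∀ β γ, f (Finsupp.single β 1) γ ≠ 0 → deg γ + c = deg β

theorem Low.P {c : ℕ} {f : (B →₀ S) →ₗ[S] (B →₀ S)} (hf : Low deg c f) (i : ℕ) (t : B →₀ S) :
    Pg S deg i (f t) = f (Pg S deg (i + c) t) := by
  have : Pg S deg i ∘ₗ f = f ∘ₗ Pg S deg (i + c) := by
    apply ext_s
    intro β
    rw [LinearMap.comp_apply, LinearMap.comp_apply, Pg_single]
    ext γ
    rw [Pg, dg_apply]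
    by_cases h : f (Finsupp.single β 1) γ = 0
    · rw [h, mul_zero]; split_ifs <;> simp [h]
    · have := hf β γ h
      by_cases h2 : deg β = i + c
      · rw [if_pos h2, if_pos (by omega), one_mul]
      · rw [if_neg h2, if_neg (by omega)]; simp
  exact LinearMap.congr_fun this t

theorem Low.P0 {f : (B →₀ S) →ₗ[S] (B →₀ S)} (hf : Low deg 1 f) (t : B →₀ S) : f (Pg S deg 0 t) = 0 := by
  have : f ∘ₗ Pg S deg 0 = 0 := by
    apply ext_s
    intro β
    rw [LinearMap.comp_apply, Pg_single]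
    split_ifs with h
    · ext γ
      by_contra h1
      have := hf β γ h1
      omega
    · simp
  exact LinearMap.congr_fun this t

theorem Low.J {c : ℕ} {f : (B →₀ S) →ₗ[S] (B →₀ S)} (hf : Low deg c f) (t : B →₀ S) :
    Jg S deg (f t) = (-1 : S) ^ c • f (Jg S deg t) := by
  have : Jg S deg ∘ₗ f = (-1 : S) ^ c • (f ∘ₗ Jg S deg) := by
    apply ext_s
    intro β
    rw [LinearMap.comp_apply, LinearMap.smul_apply, LinearMap.comp_apply, Jg_single, map_smul, smul_smul]
    ext γ
    rw [Jg, dg_apply, Finsupp.smul_apply, smul_eq_mul]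
    by_cases h : f (Finsupp.single β 1) γ = 0
    · rw [h]; simp
    · have := hf β γ h
      rw [← this, pow_add]
      have h2 : (-1 : S) ^ c * (-1) ^ c = 1 := by rw [← mul_pow]; simp
      calc (-1 : S) ^ deg γ * f (Finsupp.single β 1) γ
          = ((-1 : S) ^ c * (-1) ^ c) * ((-1 : S) ^ deg γ * f (Finsupp.single β 1) γ) := by rw [h2, one_mul]
        _ = _ := by ring
  exact LinearMap.congr_fun this t
end dgl

variable {R B : Type} [CommRing R] [IsLocalRing R] (X : Res R B)


namespace Res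

theorem red_dg (w : B → R) (x : B →₀ R) : red R B (dg w x) = dg (fun β => residue R (w β)) (red R B x) := by
  ext γ; simp only [red_apply, dg_apply, map_mul]

/-- liftable operators of degree `-q` -/
def Lift (q : ℕ) (φ : (B →₀ ResidueField R) →ₗ[ResidueField R] (B →₀ ResidueField R)) : Prop :=
  ∃ ψ : (B →₀ R) →ₗ[R] (B →₀ R), (∀ z, X.d (ψ z) = ψ (X.d z)) ∧ Low X.deg q ψ ∧
    ∀ x, red R B (ψ x) = φ (red R B x)

variable {X}

theorem Lift.low {q : ℕ} {φ : (B →₀ ResidueField R) →ₗ[ResidueField R] (B →₀ ResidueField R)} (h : X.Lift q φ) : Low X.deg q φ := by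
  obtain ⟨ψ, h1, h2, h3⟩ := h
  intro β γ hγ
  have e : (Finsupp.single β (1 : (ResidueField R))) = red R B (Finsupp.single β 1) := by rw [red_single, map_one]
  rw [e, ← h3, red_apply] at hγ
  exact h2 β γ (fun h0 => hγ (by rw [h0, map_zero]))

theorem Lift.add {q : ℕ} {φ φ' : (B →₀ ResidueField R) →ₗ[ResidueField R] (B →₀ ResidueField R)} (h : X.Lift q φ) (h' : X.Lift q φ') : X.Lift q (φ + φ') := by
  obtain ⟨ψ, h1, h2, h3⟩ := h
  obtain ⟨ψ', h1', h2', h3'⟩ := h'
  refine ⟨ψ + ψ', ?_, ?_, ?_⟩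
  · intro z; simp only [LinearMap.add_apply, map_add, h1, h1']
  · intro β γ hγ
    rw [LinearMap.add_apply, Finsupp.add_apply] at hγ
    by_cases h0 : ψ (Finsupp.single β 1) γ = 0
    · exact h2' β γ (by rwa [h0, zero_add] at hγ)
    · exact h2 β γ h0
  · intro x; simp only [LinearMap.add_apply, map_add, h3, h3']

theorem Lift.zero (q : ℕ) : X.Lift q (0 : (B →₀ ResidueField R) →ₗ[ResidueField R] (B →₀ ResidueField R)) :=
  ⟨0, by simp, by intro β γ h; simp at h, by simp⟩

theorem Lift.smul {q : ℕ} {φ : (B →₀ ResidueField R) →ₗ[ResidueField R] (B →₀ ResidueField R)} (h : X.Lift q φ) (c : (ResidueField R)) : X.Lift q (c • φ) := by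
  obtain ⟨ψ, h1, h2, h3⟩ := h
  obtain ⟨r, rfl⟩ := residue_surjective c
  refine ⟨r • ψ, ?_, ?_, ?_⟩
  · intro z; simp only [LinearMap.smul_apply, map_smul, h1]
  · intro β γ hγ
    rw [LinearMap.smul_apply, Finsupp.smul_apply, smul_eq_mul] at hγ
    exact h2 β γ (fun h0 => hγ (by rw [h0, mul_zero]))
  · intro x; simp only [LinearMap.smul_apply, map_smul, h3]
    rw [← algebraMap_smul (ResidueField R) r]; rfl

theorem Lift.sum {q : ℕ} {ι : Type*} (s : Finset ι) (φ : ι → ((B →₀ ResidueField R) →ₗ[ResidueField R] (B →₀ ResidueField R))) (h : ∀ i ∈ s, X.Lift q (φ i)) :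
    X.Lift q (∑ i ∈ s, φ i) := by
  classical
  induction s using Finset.induction_on with
  | empty => simpa using Lift.zero q
  | insert a s ha ih =>
    rw [Finset.sum_insert ha]
    exact (h a (Finset.mem_insert_self a s)).add (ih fun i hi => h i (Finset.mem_insert_of_mem hi))

theorem Low.comp' {S : Type} [CommRing S] {deg : B → ℕ} {q q' : ℕ} {f g : (B →₀ S) →ₗ[S] (B →₀ S)}
    (hf : Low deg q f) (hg : Low deg q' g) : Low deg (q + q') (f ∘ₗ g) := by
  intro β γ h
  rw [LinearMap.comp_apply] at h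
  have e : g (Finsupp.single β 1) = (g (Finsupp.single β 1)).sum fun δ a => a • Finsupp.single δ 1 := by
    conv_lhs => rw [← Finsupp.sum_single (g (Finsupp.single β 1))]
    simp
  rw [e, Finsupp.sum, map_sum, Finsupp.finsetSum_apply] at h
  obtain ⟨δ, hδ, h1⟩ := Finset.exists_ne_zero_of_sum_ne_zero h
  rw [map_smul, Finsupp.smul_apply, smul_eq_mul] at h1
  have h2 := hf δ γ (fun h0 => h1 (by rw [h0, mul_zero]))
  have h3 := hg β δ (Finsupp.mem_support_iff.1 hδ)
  omega

theorem Lift.comp {q q' : ℕ} {φ φ' : (B →₀ ResidueField R) →ₗ[ResidueField R] (B →₀ ResidueField R)} (h : X.Lift q φ) (h' : X.Lift q' φ') :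
    X.Lift (q + q') (φ ∘ₗ φ') := by
  obtain ⟨ψ, h1, h2, h3⟩ := h
  obtain ⟨ψ', h1', h2', h3'⟩ := h'
  refine ⟨ψ ∘ₗ ψ', ?_, Low.comp' h2 h2', ?_⟩
  · intro z; simp only [LinearMap.comp_apply, h1, h1']
  · intro x; simp only [LinearMap.comp_apply, h3, h3']

theorem Lift.id : X.Lift 0 (LinearMap.id : (B →₀ ResidueField R) →ₗ[ResidueField R] (B →₀ ResidueField R)) := by
  classical
  refine ⟨LinearMap.id, by simp, ?_, by simp⟩
  intro β γ h
  rw [LinearMap.id_apply, Finsupp.single_apply] at h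
  by_contra h1
  rw [if_neg] at h
  · exact h rfl
  · intro h2; rw [h2] at h1; exact h1 rfl

theorem Lift.eq_zero {q : ℕ} {φ : (B →₀ ResidueField R) →ₗ[ResidueField R] (B →₀ ResidueField R)} (h : X.Lift q φ) (h0 : ∀ t, φ t X.one = 0) : φ = 0 := by
  obtain ⟨ψ, h1, h2, h3⟩ := h
  apply LinearMap.ext
  intro t
  obtain ⟨x, rfl⟩ := red_surj t
  rw [LinearMap.zero_apply, ← h3]
  refine det1 X q ψ h2 h1 ?_ x
  intro z
  rw [← red_apply, h3, h0]

theorem Lift.eq {q : ℕ} {φ φ' : (B →₀ ResidueField R) →ₗ[ResidueField R] (B →₀ ResidueField R)} (h : X.Lift q φ) (h' : X.Lift q φ')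
    (h0 : ∀ t, φ t X.one = φ' t X.one) : φ = φ' := by
  have h1 : X.Lift q (φ + (-1 : (ResidueField R)) • φ') := h.add (h'.smul _)
  have h2 := h1.eq_zero (by
    intro t
    rw [LinearMap.add_apply, LinearMap.smul_apply, Finsupp.add_apply, Finsupp.smul_apply, h0]; simp)
  apply LinearMap.ext
  intro t
  have h3 := LinearMap.congr_fun h2 t
  rw [LinearMap.add_apply, LinearMap.smul_apply, neg_smul, one_smul, LinearMap.zero_apply, ← sub_eq_add_neg] at h3
  exact sub_eq_zero.1 h3

/-! ### coordinates of `m/m²` -/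
variable (X)

theorem exists_lift1 (r : R) (hr : r ∈ maximalIdeal R) :
    ∃ z : B →₀ R, (∀ γ, z γ ≠ 0 → X.deg γ = 1) ∧ X.d z = Finsupp.single X.one r := by
  classical
  refine X.ex 0 (Finsupp.single X.one r) ?_ ?_ ?_
  · intro γ h
    rw [Finsupp.single_apply] at h
    by_cases h1 : X.one = γ
    · rw [← h1, X.deg_one]
    · rw [if_neg h1] at h; exact absurd rfl h
  · have : Finsupp.single X.one r = r • Finsupp.single X.one (1 : R) := by simp
    rw [this, map_smul, X.d_one, smul_zero]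
  · simpa using hr

open Classical in
noncomputable def cc (r : R) : (B →₀ ResidueField R) :=
  if h : r ∈ maximalIdeal R then red R B (X.exists_lift1 r h).choose else 0

theorem d_deg1 (z : B →₀ R) (hz : ∀ γ, z γ ≠ 0 → X.deg γ = 1) : X.d z = Finsupp.single X.one (X.d z X.one) := by
  classical
  have h1 : z ∈ grb (Finsupp.basisSingleOne (R := R)) X.deg 1 := by
    intro i hi; exact hz i (by simpa using hi)
  have h2 : X.d z ∈ grb (Finsupp.basisSingleOne (R := R)) X.deg 0 := X.tgtF.d_gr 0 z h1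
  ext γ
  rw [Finsupp.single_apply]
  split_ifs with h
  · rw [h]
  · by_contra h3
    exact h (X.uniq γ (h2 γ (by simpa using h3))).symm

theorem cc_d (z : B →₀ R) (hz : ∀ γ, z γ ≠ 0 → X.deg γ = 1) : X.cc (X.d z X.one) = red R B z := by
  have hm : X.d z X.one ∈ maximalIdeal R := X.d_min z _
  rw [cc, dif_pos hm]
  set w := (X.exists_lift1 _ hm).choose with hw
  have hw1 : (∀ γ, w γ ≠ 0 → X.deg γ = 1) ∧ X.d w = Finsupp.single X.one (X.d z X.one) :=
    (X.exists_lift1 _ hm).choose_spec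
  have h1 : X.d (w - z) = 0 := by rw [map_sub, hw1.2, ← X.d_deg1 z hz, sub_self]
  have h2 : ∀ γ, (w - z) γ ≠ 0 → X.deg γ = 1 := by
    intro γ h
    rw [Finsupp.sub_apply] at h
    by_cases h3 : w γ = 0
    · exact hz γ (fun h4 => h (by rw [h3, h4, sub_zero]))
    · exact hw1.1 γ h3
  obtain ⟨u, -, hu⟩ := X.ex 1 (w - z) h2 h1 (by
    have : (w - z) X.one = 0 := by
      by_contra h
      have := h2 _ h
      rw [X.deg_one] at this; omega
    rw [this]; exact Ideal.zero_mem _)
  have h3 : red R B (w - z) = 0 := by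
    rw [red_eq_zero]; intro γ; rw [← hu]; exact X.d_min u γ
  rw [map_sub] at h3
  exact sub_eq_zero.1 h3

theorem cc_zero : X.cc 0 = 0 := by
  have := X.cc_d 0 (by simp)
  simpa using this

theorem cc_add (r s : R) (hr : r ∈ maximalIdeal R) (hs : s ∈ maximalIdeal R) : X.cc (r + s) = X.cc r + X.cc s := by
  obtain ⟨z, hz1, hz2⟩ := X.exists_lift1 r hr
  obtain ⟨w, hw1, hw2⟩ := X.exists_lift1 s hs
  have e1 : X.d z X.one = r := by rw [hz2]; simp
  have e2 : X.d w X.one = s := by rw [hw2]; simp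
  have e3 : X.d (z + w) X.one = r + s := by rw [map_add, Finsupp.add_apply, e1, e2]
  rw [← e3, X.cc_d, map_add, ← X.cc_d z hz1, ← X.cc_d w hw1, e1, e2]
  · intro γ h
    rw [Finsupp.add_apply] at h
    by_cases h3 : z γ = 0
    · exact hw1 γ (fun h4 => h (by rw [h3, h4, add_zero]))
    · exact hz1 γ h3

theorem cc_mul (a r : R) (hr : r ∈ maximalIdeal R) : X.cc (a * r) = residue R a • X.cc r := by
  obtain ⟨z, hz1, hz2⟩ := X.exists_lift1 r hr
  have e1 : X.d z X.one = r := by rw [hz2]; simp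
  have e3 : X.d (a • z) X.one = a * r := by rw [map_smul, Finsupp.smul_apply, e1, smul_eq_mul]
  rw [← e3, X.cc_d, ← e1, X.cc_d z hz1, map_smul]
  · rw [← algebraMap_smul (ResidueField R) a]; rfl
  · intro γ h
    rw [Finsupp.smul_apply, smul_eq_mul] at h
    exact hz1 γ (fun h0 => h (by rw [h0, mul_zero]))

/-- coefficientwise `j`-th coordinate in `m/m²` -/
noncomputable def cF (j : B) (x : B →₀ R) : (B →₀ ResidueField R) := x.mapRange (fun r => X.cc r j) (by rw [X.cc_zero]; rfl)

theorem cF_apply (j : B) (x : B →₀ R) (γ : B) : X.cF j x γ = X.cc (x γ) j := rfl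

theorem cF_add (j : B) (x y : B →₀ R) (hx : ∀ γ, x γ ∈ maximalIdeal R) (hy : ∀ γ, y γ ∈ maximalIdeal R) :
    X.cF j (x + y) = X.cF j x + X.cF j y := by
  ext γ
  rw [Finsupp.add_apply, cF_apply, cF_apply, cF_apply, Finsupp.add_apply, X.cc_add _ _ (hx γ) (hy γ)]; rfl

theorem cF_smul' (j : B) (a : R) (x : B →₀ R) (hx : ∀ γ, x γ ∈ maximalIdeal R) :
    X.cF j (a • x) = residue R a • X.cF j x := by
  ext γ
  rw [Finsupp.smul_apply, cF_apply, cF_apply, Finsupp.smul_apply, smul_eq_mul, X.cc_mul _ _ (hx γ)]; rfl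

theorem cF_smul (j : B) (r : R) (hr : r ∈ maximalIdeal R) (y : B →₀ R) :
    X.cF j (r • y) = X.cc r j • red R B y := by
  ext γ
  rw [Finsupp.smul_apply, cF_apply, Finsupp.smul_apply, smul_eq_mul, mul_comm, X.cc_mul _ _ hr, red_apply,
    Finsupp.smul_apply, smul_eq_mul, smul_eq_mul, mul_comm]

theorem cF_nat (j : B) (ψ : (B →₀ R) →ₗ[R] (B →₀ R)) (ψ' : (B →₀ ResidueField R) →ₗ[ResidueField R] (B →₀ ResidueField R)) (h : ∀ x, red R B (ψ x) = ψ' (red R B x))
    (x : B →₀ R) (hx : ∀ γ, x γ ∈ maximalIdeal R) : X.cF j (ψ x) = ψ' (X.cF j x) := by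
  have hx' : x ∈ maximalIdeal R • (⊤ : Submodule R (B →₀ R)) := by
    rw [mem_smul_top_iff Finsupp.basisSingleOne]; intro i; simpa using hx i
  have key : (∀ γ, x γ ∈ maximalIdeal R) ∧ (∀ γ, ψ x γ ∈ maximalIdeal R) ∧ X.cF j (ψ x) = ψ' (X.cF j x) := by
    refine Submodule.smul_induction_on hx' ?_ ?_
    · intro r hr y _
      refine ⟨fun γ => ?_, fun γ => ?_, ?_⟩
      · rw [Finsupp.smul_apply, smul_eq_mul]; exact Ideal.mul_mem_right _ _ hr
      · rw [map_smul, Finsupp.smul_apply, smul_eq_mul]; exact Ideal.mul_mem_right _ _ hr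
      · rw [map_smul, X.cF_smul j r hr, X.cF_smul j r hr, h, map_smul]
    · intro a b ha hb
      refine ⟨fun γ => ?_, fun γ => ?_, ?_⟩
      · rw [Finsupp.add_apply]; exact Ideal.add_mem _ (ha.1 γ) (hb.1 γ)
      · rw [map_add, Finsupp.add_apply]; exact Ideal.add_mem _ (ha.2.1 γ) (hb.2.1 γ)
      · rw [map_add, X.cF_add j _ _ ha.2.1 hb.2.1, X.cF_add j _ _ ha.1 hb.1, ha.2.2, hb.2.2, map_add]
  exact key.2.2

/-- the operators `λ_j` -/
noncomputable def lamT (j : B) : (B →₀ ResidueField R) →ₗ[ResidueField R] (B →₀ ResidueField R) :=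
  bar (V := (B →₀ ResidueField R))
    { toFun := fun x => X.cF j (X.d x)
      map_add' := by intro a b; rw [map_add, X.cF_add j _ _ (X.d_min a) (X.d_min b)]
      map_smul' := by
        intro c a
        rw [map_smul, X.cF_smul' j c _ (X.d_min a), RingHom.id_apply, ← algebraMap_smul (ResidueField R) c]; rfl }

theorem lamT_red (j : B) (x : B →₀ R) : X.lamT j (red R B x) = X.cF j (X.d x) := by
  rw [lamT, bar_red]; rfl

theorem lamT_low (j : B) : Low X.deg 1 (X.lamT j) := by
  intro β γ h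
  have e : (Finsupp.single β (1 : (ResidueField R))) = red R B (Finsupp.single β 1) := by rw [red_single, map_one]
  rw [e, lamT_red, cF_apply] at h
  exact X.d_deg β γ (fun h0 => h (by rw [h0, X.cc_zero]; rfl))

theorem lamT_one (j : B) (hj : X.deg j = 1) (t : (B →₀ ResidueField R)) : X.lamT j t X.one = t j := by
  classical
  have : (Finsupp.lapply X.one) ∘ₗ X.lamT j = Finsupp.lapply j := by
    apply ext_s
    intro β
    have e : (Finsupp.single β (1 : (ResidueField R))) = red R B (Finsupp.single β 1) := by rw [red_single, map_one]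
    rw [LinearMap.comp_apply, e, lamT_red, Finsupp.lapply_apply, Finsupp.lapply_apply, cF_apply]
    by_cases h : X.deg β = 1
    · rw [X.cc_d]
      intro γ hγ
      rw [Finsupp.single_apply] at hγ
      by_cases h1 : β = γ
      · rw [← h1, h]
      · rw [if_neg h1] at hγ; exact absurd rfl hγ
    · have h0 : X.d (Finsupp.single β 1) X.one = 0 := by
        by_contra h1
        have := X.d_deg _ _ h1
        rw [X.deg_one] at this; exact h (by omega)
      rw [h0, X.cc_zero, red_apply, Finsupp.single_apply, if_neg]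
      · simp
      · intro h1; rw [h1] at h; exact h hj
  exact LinearMap.congr_fun this t

variable {X} in
theorem Lift.comm {q : ℕ} {φ : (B →₀ ResidueField R) →ₗ[ResidueField R] (B →₀ ResidueField R)} (h : X.Lift q φ) (j : B) (t : (B →₀ ResidueField R)) : X.lamT j (φ t) = φ (X.lamT j t) := by
  obtain ⟨ψ, h1, h2, h3⟩ := h
  obtain ⟨x, rfl⟩ := red_surj t
  rw [← h3, lamT_red, h1, X.cF_nat j ψ φ h3 _ (X.d_min x), lamT_red]

end Res
end Pool.Agent.N38.LD
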