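import Pool.Agent.N38.LD.B4
/-! T-level identities: counit, unit, derivations. -/
set_option autoImplicit false
set_option linter.unusedSectionVars false
set_option linter.unusedVariables false
open IsLocalRing TensorProduct

namespace Pool.Agent.N38.LD

variable {R B : Type} [CommRing R] [IsLocalRing R] {X : Res R B}


namespace Res
namespace HR
variable (Y : HR X)

/-- contraction of the coproduct with a functional -/
noncomputable def rhoT (f : (B →₀ ResidueField R) →ₗ[ResidueField R] (ResidueField R)) : (B →₀ ResidueField R) →ₗ[ResidueField R] (B →₀ ResidueField R) := ctr (B →₀ ResidueField R) f ∘ₗ Y.DelT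

theorem lid_redd (z : (B →₀ R) ⊗[R] (B →₀ R)) :
    TensorProduct.lid (ResidueField R) (B →₀ ResidueField R) ((Finsupp.lapply X.one).rTensor (B →₀ ResidueField R) (redd R B z)) = X.alFF z := by
  induction z with
  | zero => simp
  | add a b ha hb => simp only [map_add, ha, hb]
  | tmul x y => rw [redd_tmul, alFF_tmul]; simp [red_apply]

theorem cou_l (t : (B →₀ ResidueField R)) : TensorProduct.lid (ResidueField R) (B →₀ ResidueField R) ((Finsupp.lapply X.one).rTensor (B →₀ ResidueField R) (Y.DelT t)) = t := by
  obtain ⟨x, rfl⟩ := red_surj t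
  rw [DelT_red, lid_redd, Y.De_al]

theorem rhoT_one (f : (B →₀ ResidueField R) →ₗ[ResidueField R] (ResidueField R)) (t : (B →₀ ResidueField R)) : Y.rhoT f t X.one = f t := by
  have : ∀ w : (B →₀ ResidueField R) ⊗[ResidueField R] (B →₀ ResidueField R), ctr (B →₀ ResidueField R) f w X.one = f (TensorProduct.lid (ResidueField R) (B →₀ ResidueField R) ((Finsupp.lapply X.one).rTensor (B →₀ ResidueField R) w)) := by
    intro w
    induction w with
    | zero => simp
    | add a b ha hb => simp only [map_add, Finsupp.add_apply, ha, hb]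
    | tmul u v => simp [mul_comm]
  rw [rhoT, LinearMap.comp_apply, this, Y.cou_l]

/-- a functional supported in degree `q` -/
def Supp (X : Res R B) (q : ℕ) (f : (B →₀ ResidueField R) →ₗ[ResidueField R] (ResidueField R)) : Prop := ∀ β, f (Finsupp.single β 1) ≠ 0 → X.deg β = q

theorem lift_rhoT (q : ℕ) (f : (B →₀ ResidueField R) →ₗ[ResidueField R] (ResidueField R)) (hf : Supp X q f) : X.Lift q (Y.rhoT f) := by
  classical
  have hc : ∀ β, ∃ r : R, residue R r = f (Finsupp.single β 1) ∧ (r ≠ 0 → X.deg β = q) := by
    intro β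
    by_cases h : f (Finsupp.single β 1) = 0
    · exact ⟨0, by rw [h, map_zero], fun h => absurd rfl h⟩
    · obtain ⟨r, hr⟩ := residue_surjective (f (Finsupp.single β 1))
      exact ⟨r, hr, fun _ => hf β h⟩
  choose c hc1 hc2 using hc
  let F : (B →₀ R) →ₗ[R] R := Finsupp.linearCombination R c
  have hF : ∀ y, residue R (F y) = f (red R B y) := by
    intro y
    induction y using Finsupp.induction_linear with
    | zero => simp
    | add a b ha hb => simp only [map_add, ha, hb]
    | single β a =>
      have : Finsupp.single β (residue R a) = residue R a • Finsupp.single β (1 : (ResidueField R)) := by simp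
      rw [red_single, this, map_smul, ← hc1]
      simp [F]
  refine ⟨(TensorProduct.rid R _).toLinearMap ∘ₗ F.lTensor _ ∘ₗ Y.De, ?_, ?_, ?_⟩
  · intro z
    simp only [LinearMap.comp_apply, LinearEquiv.coe_coe, ← Y.De_d]
    induction Y.De z with
    | zero => simp
    | add a b ha hb => simp only [map_add, ha, hb]
    | tmul u v => simp
  · intro β γ h
    have h1 : ((TensorProduct.rid R (B →₀ R)).toLinearMap ∘ₗ F.lTensor (B →₀ R)) (Y.De (Finsupp.single β 1)) ∈
        grb (Finsupp.basisSingleOne (R := R)) (fun γ => X.deg γ + q) (X.deg β) := by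
      refine map_grb (bFF R B) X.degFF (X.deg β) _ _ ?_ (Y.De_gr β)
      intro p hp i hi
      rw [bFF_apply] at hi
      simp only [LinearMap.comp_apply, LinearMap.lTensor_tmul, LinearEquiv.coe_coe, TensorProduct.rid_tmul,
        Finsupp.basisSingleOne_repr, LinearEquiv.refl_apply, Finsupp.smul_apply, smul_eq_mul] at hi
      have g1 : F (Finsupp.single p.2 1) ≠ 0 := fun h0 => hi (by rw [h0, zero_mul])
      have g2 : Finsupp.single p.1 (1 : R) i ≠ 0 := fun h0 => hi (by rw [h0, mul_zero])
      have g3 : c p.2 ≠ 0 := by simpa [F] using g1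
      rw [Finsupp.single_apply] at g2
      have g4 : p.1 = i := by by_contra h5; rw [if_neg h5] at g2; exact g2 rfl
      have g5 := hc2 _ g3
      simp only [degFF] at hp
      show X.deg i + q = X.deg β
      rw [← g4]; omega
    exact h1 γ (by simpa using h)
  · intro x
    simp only [rhoT, LinearMap.comp_apply, DelT_red, LinearEquiv.coe_coe]
    induction Y.De x with
    | zero => simp
    | add a b ha hb => simp only [map_add, ha, hb]
    | tmul u v =>
      rw [redd_tmul, ctr_tmul, LinearMap.lTensor_tmul, TensorProduct.rid_tmul, map_smul, ← hF,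
        ← algebraMap_smul (ResidueField R) (F v)]
      rfl

theorem supp_lapply (j : B) : Supp X (X.deg j) (Finsupp.lapply j : (B →₀ ResidueField R) →ₗ[ResidueField R] (ResidueField R)) := by
  classical
  intro β h
  rw [Finsupp.lapply_apply, Finsupp.single_apply] at h
  by_cases h1 : β = j
  · rw [h1]
  · rw [if_neg h1] at h; exact absurd rfl h

theorem cou_r (t : (B →₀ ResidueField R)) : ctr (B →₀ ResidueField R) (Finsupp.lapply X.one) (Y.DelT t) = t := by
  have h1 : X.Lift 0 (Y.rhoT (Finsupp.lapply X.one)) := Y.lift_rhoT 0 _ (by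
    have := supp_lapply (X := X) X.one
    rwa [X.deg_one] at this)
  have h2 := h1.eq Lift.id (by intro t; rw [Y.rhoT_one]; rfl)
  exact LinearMap.congr_fun h2 t

theorem Del_lam (j : B) (t : (B →₀ ResidueField R)) : Y.DelT (X.lamT j t) = (X.lamT j).rTensor (B →₀ ResidueField R) (Y.DelT t) := by
  classical
  rw [← sub_eq_zero]
  have key : ∀ β : B, ctr (B →₀ ResidueField R) (Finsupp.lapply β) (Y.DelT (X.lamT j t) - (X.lamT j).rTensor (B →₀ ResidueField R) (Y.DelT t)) = 0 := by
    intro β
    rw [map_sub, ctr_rT]
    have h := (Y.lift_rhoT _ _ (supp_lapply β)).comm j t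
    simp only [rhoT, LinearMap.comp_apply] at h
    rw [h, sub_self]
  apply eq_zero_of_ctr
  intro f
  -- expand `f` in coordinates
  have h2 : ∀ w : (B →₀ ResidueField R) ⊗[ResidueField R] (B →₀ ResidueField R), (∀ β : B, ctr (B →₀ ResidueField R) (Finsupp.lapply β) w = 0) → w = 0 := by
    intro w hw
    apply (TensorProduct.equivFinsuppOfBasisRight (Finsupp.basisSingleOne (R := (ResidueField R)) (ι := B)) (M := (B →₀ ResidueField R))).injective
    rw [map_zero]
    ext1 β
    have : ∀ z : (B →₀ ResidueField R) ⊗[ResidueField R] (B →₀ ResidueField R), (TensorProduct.equivFinsuppOfBasisRight (Finsupp.basisSingleOne (R := (ResidueField R)) (ι := B)) (M := (B →₀ ResidueField R))) z β =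
        ctr (B →₀ ResidueField R) (Finsupp.lapply β) z := by
      intro z
      induction z with
      | zero => simp
      | add a b ha hb => simp only [map_add, Finsupp.add_apply, ha, hb]
      | tmul v t => simp [TensorProduct.equivFinsuppOfBasisRight_apply_tmul_apply]
    rw [this, hw]; rfl
  rw [h2 _ key, map_zero]

theorem eq_zero_of_coord (w : (B →₀ ResidueField R) ⊗[ResidueField R] (B →₀ ResidueField R)) (hw : ∀ β : B, ctr (B →₀ ResidueField R) (Finsupp.lapply β) w = 0) : w = 0 := by
  classical
  apply (TensorProduct.equivFinsuppOfBasisRight (Finsupp.basisSingleOne (R := (ResidueField R)) (ι := B)) (M := (B →₀ ResidueField R))).injective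
  rw [map_zero]
  ext1 β
  have : ∀ z : (B →₀ ResidueField R) ⊗[ResidueField R] (B →₀ ResidueField R), (TensorProduct.equivFinsuppOfBasisRight (Finsupp.basisSingleOne (R := (ResidueField R)) (ι := B)) (M := (B →₀ ResidueField R))) z β =
      ctr (B →₀ ResidueField R) (Finsupp.lapply β) z := by
    intro z
    induction z with
    | zero => simp
    | add a b ha hb => simp only [map_add, Finsupp.add_apply, ha, hb]
    | tmul v t => simp [TensorProduct.equivFinsuppOfBasisRight_apply_tmul_apply]
  rw [this, hw]; rfl

theorem lam_Del (j : B) (hj : X.deg j = 1) (t : (B →₀ ResidueField R)) :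
    (X.lamT j).lTensor (B →₀ ResidueField R) (Y.DelT t) = (Y.rhoT (Finsupp.lapply j)).rTensor (B →₀ ResidueField R) (Y.DelT t) := by
  rw [← sub_eq_zero]
  apply eq_zero_of_coord
  intro β
  rw [map_sub, ctr_lT, ctr_rT, sub_eq_zero]
  have h1 : X.Lift (X.deg β + 1) (Y.rhoT (Finsupp.lapply β ∘ₗ X.lamT j)) := by
    apply Y.lift_rhoT
    intro γ h
    rw [LinearMap.comp_apply, Finsupp.lapply_apply] at h
    exact (X.lamT_low j γ β h).symm
  have h2 : X.Lift (1 + X.deg β) (Y.rhoT (Finsupp.lapply j) ∘ₗ Y.rhoT (Finsupp.lapply β)) := by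
    have h3 := Y.lift_rhoT _ _ (supp_lapply (X := X) j)
    rw [hj] at h3
    exact h3.comp (Y.lift_rhoT _ _ (supp_lapply β))
  rw [add_comm] at h2
  have h4 := h1.eq h2 (by
    intro t
    rw [Y.rhoT_one, LinearMap.comp_apply, LinearMap.comp_apply, Y.rhoT_one, Finsupp.lapply_apply,
      Finsupp.lapply_apply, ← X.lamT_one j hj, (Y.lift_rhoT _ _ (supp_lapply β)).comm j t, Y.rhoT_one,
      Finsupp.lapply_apply])
  exact LinearMap.congr_fun h4 t

/-! ### the product -/

theorem mu_eps (s t : (B →₀ ResidueField R)) : Y.muT s t X.one = s X.one * t X.one := by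
  obtain ⟨x, rfl⟩ := red_surj s
  obtain ⟨y, rfl⟩ := red_surj t
  rw [muT_red, red_apply, Y.m_al, red_apply, red_apply]

theorem m_low (p : B × B) (γ : B) (h : Y.m (Finsupp.single p.1 1 ⊗ₜ Finsupp.single p.2 1) γ ≠ 0) :
    X.deg γ = X.deg p.1 + X.deg p.2 := by
  have := Y.m_gr p
  rw [bFF_apply] at this
  exact this γ (by simpa using h)

theorem one_mu (t : (B →₀ ResidueField R)) : Y.muT (Finsupp.single X.one 1) t = t := by
  have h1 : X.Lift 0 (Y.muT (Finsupp.single X.one 1)) := by
    refine ⟨Y.m ∘ₗ TensorProduct.mk R _ _ (Finsupp.single X.one 1), ?_, ?_, ?_⟩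
    · intro z
      simp only [LinearMap.comp_apply, TensorProduct.mk_apply]
      rw [Y.m_d, DFF_tmul, X.d_one, zero_tmul, zero_add, X.J_one]
    · intro β γ h
      have := Y.m_low (X.one, β) γ h
      simp only [X.deg_one] at this
      omega
    · intro x
      have : (Finsupp.single X.one (1 : (ResidueField R))) = red R B (Finsupp.single X.one 1) := by rw [red_single, map_one]
      rw [this, muT_red]; rfl
  have h2 := h1.eq Lift.id (by intro t; rw [Y.mu_eps]; simp)
  exact LinearMap.congr_fun h2 t

theorem mu_one (t : (B →₀ ResidueField R)) : Y.muT t (Finsupp.single X.one 1) = t := by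
  have h1 : X.Lift 0 (Y.muT.flip (Finsupp.single X.one 1)) := by
    refine ⟨Y.m ∘ₗ (TensorProduct.mk R _ _).flip (Finsupp.single X.one 1), ?_, ?_, ?_⟩
    · intro z
      simp only [LinearMap.comp_apply, TensorProduct.mk_apply, LinearMap.flip_apply]
      rw [Y.m_d, DFF_tmul, X.d_one, tmul_zero, add_zero]
    · intro β γ h
      have := Y.m_low (β, X.one) γ h
      simp only [X.deg_one] at this
      omega
    · intro x
      have : (Finsupp.single X.one (1 : (ResidueField R))) = red R B (Finsupp.single X.one 1) := by rw [red_single, map_one]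
      rw [this, LinearMap.flip_apply, muT_red]; rfl
  have h2 := h1.eq Lift.id (by intro t; rw [LinearMap.flip_apply, Y.mu_eps]; simp)
  exact LinearMap.congr_fun h2 t

theorem red_J (x : B →₀ R) : red R B (X.J x) = Jg (ResidueField R) X.deg (red R B x) := by
  simp only [J, red_dg, Jg, map_pow, map_neg, map_one]

theorem lam_mu (j : B) (s t : (B →₀ ResidueField R)) :
    X.lamT j (Y.muT s t) = Y.muT (X.lamT j s) t + Y.muT (Jg (ResidueField R) X.deg s) (X.lamT j t) := by
  obtain ⟨x, rfl⟩ := red_surj s
  obtain ⟨y, rfl⟩ := red_surj t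
  rw [muT_red, lamT_red, Y.m_d, DFF_tmul, map_add, X.cF_add]
  · congr 1
    · rw [lamT_red]
      have := X.cF_nat j (Y.m ∘ₗ (TensorProduct.mk R _ _).flip y) (Y.muT.flip (red R B y))
        (by intro x; rw [LinearMap.flip_apply, muT_red]; rfl) (X.d x) (X.d_min x)
      exact this
    · rw [lamT_red, ← red_J]
      have := X.cF_nat j (Y.m ∘ₗ (TensorProduct.mk R _ _) (X.J x)) (Y.muT (red R B (X.J x)))
        (by intro x; rw [muT_red]; rfl) (X.d y) (X.d_min y)
      exact this
  · intro γ
    have : Y.m (X.d x ⊗ₜ y) ∈ maximalIdeal R • (⊤ : Submodule R (B →₀ R)) := by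
      have h1 := tmul_mem_left (X.d_mem x) y
      refine Submodule.smul_induction_on h1 ?_ ?_
      · intro r hr n _; rw [map_smul]; exact Submodule.smul_mem_smul hr Submodule.mem_top
      · intro a b ha hb; rw [map_add]; exact Submodule.add_mem _ ha hb
    have h2 := (mem_smul_top_iff Finsupp.basisSingleOne _ _).1 this γ
    simpa using h2
  · intro γ
    have : Y.m (X.J x ⊗ₜ X.d y) ∈ maximalIdeal R • (⊤ : Submodule R (B →₀ R)) := by
      have h1 := tmul_mem_right (X.d_mem y) (X.J x)
      refine Submodule.smul_induction_on h1 ?_ ?_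
      · intro r hr n _; rw [map_smul]; exact Submodule.smul_mem_smul hr Submodule.mem_top
      · intro a b ha hb; rw [map_add]; exact Submodule.add_mem _ ha hb
    have h2 := (mem_smul_top_iff Finsupp.basisSingleOne _ _).1 this γ
    simpa using h2

/-! ### degrees -/

theorem mu_deg (α β γ : B) (h : Y.muT (Finsupp.single α 1) (Finsupp.single β 1) γ ≠ 0) :
    X.deg γ = X.deg α + X.deg β := by
  have e : ∀ β : B, (Finsupp.single β (1 : (ResidueField R))) = red R B (Finsupp.single β 1) := by
    intro β; rw [red_single, map_one]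
  rw [e, e, muT_red, red_apply] at h
  exact Y.m_low (α, β) γ (fun h0 => h (by rw [h0, map_zero]))

theorem Del_deg (β : B) : Y.DelT (Finsupp.single β 1) ∈ grb (bFF (ResidueField R) B) X.degFF (X.deg β) := by
  intro p hp
  have e : (Finsupp.single β (1 : (ResidueField R))) = red R B (Finsupp.single β 1) := by rw [red_single, map_one]
  rw [e, DelT_red, redd_repr] at hp
  exact Y.De_gr β p (fun h0 => hp (by rw [h0, map_zero]))

theorem P_mu (i j n : ℕ) (s t : (B →₀ ResidueField R)) (h : n ≠ i + j) :
    Pg (ResidueField R) X.deg n (Y.muT (Pg (ResidueField R) X.deg i s) (Pg (ResidueField R) X.deg j t)) = 0 := by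
  induction s using Finsupp.induction_linear with
  | zero => simp
  | add a b ha hb => simp only [map_add, LinearMap.add_apply, ha, hb, add_zero]
  | single α a =>
    induction t using Finsupp.induction_linear with
    | zero => simp
    | add a b ha hb => simp only [map_add, ha, hb, add_zero]
    | single β b =>
      rw [Pg_single, Pg_single]
      split_ifs with h1 h2 h2
      · have e1 : Finsupp.single α a = a • Finsupp.single α (1 : (ResidueField R)) := by simp
        have e2 : Finsupp.single β b = b • Finsupp.single β (1 : (ResidueField R)) := by simp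
        rw [e1, e2]
        simp only [map_smul, LinearMap.smul_apply]
        have : Pg (ResidueField R) X.deg n (Y.muT (Finsupp.single α 1) (Finsupp.single β 1)) = 0 := by
          ext γ
          rw [Pg, dg_apply]
          by_cases h3 : Y.muT (Finsupp.single α 1) (Finsupp.single β 1) γ = 0
          · rw [h3, mul_zero]; rfl
          · have := Y.mu_deg α β γ h3
            rw [if_neg (by omega), zero_mul]; rfl
        rw [this, smul_zero, smul_zero]
      · simp
      · simp
      · simp

theorem P_Del (i j n : ℕ) (t : (B →₀ ResidueField R)) (h : n ≠ i + j) :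
    TensorProduct.map (Pg (ResidueField R) X.deg i) (Pg (ResidueField R) X.deg j) (Y.DelT (Pg (ResidueField R) X.deg n t)) = 0 := by
  induction t using Finsupp.induction_linear with
  | zero => simp
  | add a b ha hb => simp only [map_add, ha, hb, add_zero]
  | single β b =>
    rw [Pg_single]
    split_ifs with h1
    · have e2 : Finsupp.single β b = b • Finsupp.single β (1 : (ResidueField R)) := by simp
      rw [e2, map_smul, map_smul]
      have h2 := map_grb (bFF (ResidueField R) B) X.degFF (X.deg β) (TensorProduct.map (Pg (ResidueField R) X.deg i) (Pg (ResidueField R) X.deg j)) ⊥ ?_ (Y.Del_deg β)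
      · rw [Submodule.mem_bot] at h2; rw [h2, smul_zero]
      · intro p hp
        rw [Submodule.mem_bot, bFF_apply, TensorProduct.map_tmul, Pg_single, Pg_single]
        simp only [degFF] at hp
        by_cases h3 : X.deg p.1 = i
        · rw [if_neg (show ¬ X.deg p.2 = j by omega), tmul_zero]
        · rw [if_neg h3, zero_tmul]
    · simp

theorem J_mu (s t : (B →₀ ResidueField R)) : Jg (ResidueField R) X.deg (Y.muT s t) = Y.muT (Jg (ResidueField R) X.deg s) (Jg (ResidueField R) X.deg t) := by
  induction s using Finsupp.induction_linear with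
  | zero => simp
  | add a b ha hb => simp only [map_add, LinearMap.add_apply, ha, hb]
  | single α a =>
    induction t using Finsupp.induction_linear with
    | zero => simp
    | add a b ha hb => simp only [map_add, ha, hb]
    | single β b =>
      have e1 : Finsupp.single α a = a • Finsupp.single α (1 : (ResidueField R)) := by simp
      have e2 : Finsupp.single β b = b • Finsupp.single β (1 : (ResidueField R)) := by simp
      rw [e1, e2]
      have key : Jg (ResidueField R) X.deg (Y.muT (Finsupp.single α 1) (Finsupp.single β 1)) =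
          ((-1) ^ X.deg α * (-1) ^ X.deg β : (ResidueField R)) • Y.muT (Finsupp.single α 1) (Finsupp.single β 1) := by
        ext γ
        rw [Jg, dg_apply, Finsupp.smul_apply, smul_eq_mul]
        by_cases h3 : Y.muT (Finsupp.single α 1) (Finsupp.single β 1) γ = 0
        · rw [h3]; simp
        · rw [Y.mu_deg α β γ h3, pow_add]
      simp only [map_smul, LinearMap.smul_apply, Jg_single, key, smul_smul]
      congr 1; ring

theorem J_Del (t : (B →₀ ResidueField R)) : Y.DelT (Jg (ResidueField R) X.deg t) = TensorProduct.map (Jg (ResidueField R) X.deg) (Jg (ResidueField R) X.deg) (Y.DelT t) := by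
  induction t using Finsupp.induction_linear with
  | zero => simp
  | add a b ha hb => simp only [map_add, ha, hb]
  | single β b =>
    have e2 : Finsupp.single β b = b • Finsupp.single β (1 : (ResidueField R)) := by simp
    rw [e2, map_smul, map_smul, map_smul, Jg_single, map_smul, map_smul]
    congr 1
    have h2 := map_grb (bFF (ResidueField R) B) X.degFF (X.deg β) LinearMap.id
      (LinearMap.eqLocus (TensorProduct.map (Jg (ResidueField R) X.deg) (Jg (ResidueField R) X.deg)) ((-1 : (ResidueField R)) ^ X.deg β • LinearMap.id)) ?_ (Y.Del_deg β)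
    · rw [LinearMap.mem_eqLocus] at h2
      simp only [LinearMap.id_apply, LinearMap.smul_apply] at h2
      exact h2.symm
    · intro p hp
      rw [LinearMap.mem_eqLocus, LinearMap.id_apply, bFF_apply, TensorProduct.map_tmul, Jg_single, Jg_single]
      simp only [degFF] at hp
      rw [← hp, pow_add, ← smul_tmul', tmul_smul, LinearMap.smul_apply, LinearMap.id_apply, smul_smul]

end HR
end Res
end Pool.Agent.N38.LD
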