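import Mathlib
/-! Statement shared by the parts of the proof of `ld_R(k) < ∞ ⇒ R` Koszul. -/
set_option autoImplicit false
open IsLocalRing

namespace Pool.Agent.N38.LD

/-- exactness of the linear part in all total degrees `> w` -/
def Acyc (R : Type) [CommRing R] [IsLocalRing R] (b : ℕ → ℕ)
    (d : ∀ n : ℕ, (Fin (b (n+1)) → R) →ₗ[R] (Fin (b n) → R)) (w : ℕ) : Prop :=
  ∀ n j : ℕ, w < n + 1 + j → ∀ x : Fin (b (n+1)) → R,
        x ∈ (maximalIdeal R) ^ j • (⊤ : Submodule R (Fin (b (n+1)) → R)) →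
        d n x ∈ (maximalIdeal R) ^ (j+2) • (⊤ : Submodule R (Fin (b n) → R)) →
        x ∈ (maximalIdeal R) ^ (j+1) • (⊤ : Submodule R (Fin (b (n+1)) → R)) ⊔
          Submodule.map (d (n+1))
            ((maximalIdeal R) ^ (j-1) • (⊤ : Submodule R (Fin (b (n+1+1)) → R)))

end Pool.Agent.N38.LD
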