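import Pool.Agent.N38.LD.Abs5
import Pool.Agent.N38.LD.Stm2
import Pool.Agent.N38.LD.Res
/-! Statement file 3: truncation idempotent on `K = G ⊗ T`. -/
set_option autoImplicit false
open IsLocalRing TensorProduct

namespace Pool.Agent.N38.LD

/-- the pairs `(n,i)` with `n + i ≤ w` -/
def Sw (w : ℕ) : Finset (ℕ × ℕ) := ((Finset.range (w+1)) ×ˢ (Finset.range (w+1))).filter (fun s => s.1 + s.2 ≤ w)

/-- truncation idempotent on `K = G ⊗ T`: projection to total degree `≤ w` -/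
noncomputable def pw {k G T : Type*} [Field k] [CommRing G] [Algebra k G] [AddCommGroup T] [Module k T]
    (pi : ℕ → G →ₗ[k] G) (P : ℕ → T →ₗ[k] T) (w : ℕ) : G ⊗[k] T →ₗ[k] G ⊗[k] T :=
  ∑ s ∈ Sw w, TensorProduct.map (pi s.1) (P s.2)

end Pool.Agent.N38.LD
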